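import Mathlib
import Pool.Agent.LeoC.CorStmts

/-!
# All quadratic extensions of a number field (squad LEOD)

MP_5f2860_nt.  `K = k(√(3m))`, `(m) = disc(k(√-m)/k) 𝔠²`.  Paper: PAPER_LEOD.md.
-/

set_option autoImplicit false

open NumberField NumberField.InfinitePlace NumberField.mixedEmbedding IsDedekindDomain Module
  MeasureTheory
open Pool.Agent.Helper85_Leo Pool.Agent.LeoK Pool.Agent.LeoG Pool.Agent.LeoC

open scoped Classical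

namespace Pool.Agent.LeoD

variable {k : Type} [Field k] [NumberField k]

/-- An integral ideal `𝔟` prime to 6, its norm `b`, and `𝔠 = b 𝔟⁻¹`. -/
structure BFr (k : Type) [Field k] [NumberField k] where
  bb : Ideal (𝓞 k)
  cc : Ideal (𝓞 k)
  b : ℕ
  nrm : b = Ideal.absNorm bb
  mul : bb * cc = Ideal.span {(b : 𝓞 k)}
  cop : Nat.Coprime b 6

/-- `(m) 𝔠⁻²` is the relative discriminant of `k(√-m) / k` (also if `-m` is a square). -/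
structure Fund (cc : Ideal (𝓞 k)) (m : 𝓞 k) : Prop where
  sq : ∃ q ∈ cc, q ^ 2 + m ∈ Ideal.span {(4 : 𝓞 k)} * cc ^ 2
  loc : ∀ p : HeightOneSpectrum (𝓞 k), ¬ ∃ x ∈ cc * p.asIdeal,
    x ^ 2 + m ∈ Ideal.span {(4 : 𝓞 k)} * (cc * p.asIdeal) ^ 2

/-- The family: sign pattern `N`, ideal class given by `B`, the primes above 3 dividing `m` are
those of `E`. -/
def Fam (Φ : CFrame k) (N : Set {w : InfinitePlace k // IsReal w}) (B : BFr k)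
    (E : Set (HeightOneSpectrum (𝓞 k))) (Z : ℝ) : Set (𝓞 k) :=
  {m | Sgn N (mixedEmbedding k (m : k)) ∧ av (mixedEmbedding k (m : k)) ∈ Φ.F ∧
    nr (av (mixedEmbedding k (m : k))) ≤ Z ∧ Fund B.cc m ∧
    ∀ p : HeightOneSpectrum (𝓞 k), (3 : 𝓞 k) ∈ p.asIdeal → (m ∈ p.asIdeal ↔ p ∈ E)}

/-- The factor between `m` and the discriminant of the forms. -/
def BFr.kap (B : BFr k) : ℕ := 3 ^ 8 * B.b ^ 6

/-- `F` is in the orbit of `h` under `GL₂(𝓞)` modulo `p ^ M` (twisted action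
`det⁻¹ h (xX + yY, zX + wY)`). -/
def InOrb (p : HeightOneSpectrum (𝓞 k)) (M : ℕ) (h F : Q4 (𝓞 k)) : Prop :=
  ∃ x y z w : 𝓞 k, x * w - y * z ∉ p.asIdeal ∧
    ∀ i, (x * w - y * z) * F i - gact h x y z w i ∈ p.asIdeal ^ M

/-- The local condition for forms at a prime above 3: divisible by 9 and with a zero modulo `9 p`,
or in the orbit of `h`. -/
def LocT (p : HeightOneSpectrum (𝓞 k)) (M : ℕ) (h F : Q4 (𝓞 k)) : Prop :=
  ((∀ i, F i ∈ Ideal.span {(9 : 𝓞 k)} ⊔ p.asIdeal ^ M) ∧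
    ∃ x y : 𝓞 k, ¬ (x ∈ p.asIdeal ∧ y ∈ p.asIdeal) ∧
      gval F x y ∈ Ideal.span {(9 : 𝓞 k)} * p.asIdeal ⊔ p.asIdeal ^ M) ∨ InOrb p M h F

/-- What the count needs to know about the form `h`: `-disc = -3⁸`, and the automorphism of
order 3. -/
structure HCyc (p : HeightOneSpectrum (𝓞 k)) (M : ℕ) (h : Q4 (𝓞 k)) : Prop where
  dis : mm h + 3 ^ 8 ∈ p.asIdeal ^ M
  stab : ∀ i, gact h (-2) 3 (-4) (-2) i - 64 * h i ∈ p.asIdeal ^ M

/-- The type of the forms. -/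
structure Typ (B : BFr k) (M : ℕ) (h : HeightOneSpectrum (𝓞 k) → Q4 (𝓞 k)) (F : Q4 (𝓞 k)) :
    Prop where
  c0 : F 0 ∈ Ideal.span {(B.b : 𝓞 k) ^ 2} * B.bb
  c1 : F 1 ∈ Ideal.span {(B.b : 𝓞 k) ^ 2}
  c2 : F 2 ∈ Ideal.span {(B.b : 𝓞 k)} * B.cc
  c3 : F 3 ∈ B.cc ^ 2
  thr : ∀ p : HeightOneSpectrum (𝓞 k), (3 : 𝓞 k) ∈ p.asIdeal → LocT p M (h p) F

/-- The marks: vectors of `𝓞 ⊕ 𝔟` that are not divisible by any prime. -/
def MksB (B : BFr k) (Φ : CFrame k) (T η : ℝ) (g : Q4 (𝓞 k)) : Set (𝓞 k × 𝓞 k) :=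
  {p | p.2 ∈ B.bb ∧ (∀ q : HeightOneSpectrum (𝓞 k), ¬ (p.1 ∈ q.asIdeal ∧ p.2 ∈ q.asIdeal * B.bb)) ∧
    hk g p.1 p.2 ∈ Φ.F ∧ nr (hk g p.1 p.2) ≤ T ∧
    ∀ v : InfinitePlace k, η * v ((mm g : 𝓞 k) : k) ^ (1 / 4 : ℝ) ≤
      v ((gval g p.1 p.2 : 𝓞 k) : k)}

/-- The normalised forms of the type with given `m`. -/
def WsetB (B : BFr k) (M : ℕ) (h : HeightOneSpectrum (𝓞 k) → Q4 (𝓞 k)) (Φ : CFrame k) (T η : ℝ)
    (m : 𝓞 k) : Set (Q4 (𝓞 k)) :=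
  {g | g ∈ Wset Φ T η m ∧ Typ B M h g}

/-- The local density of the family at a prime (up to the factor at 2). -/
noncomputable def dE (E : Set (HeightOneSpectrum (𝓞 k))) (p : HeightOneSpectrum (𝓞 k)) : ℝ :=
  if (3 : 𝓞 k) ∈ p.asIdeal then (if p ∈ E then (1 - 1 / np p) / np p else 1 - 1 / np p)
  else 1 - 1 / np p ^ 2

end Pool.Agent.LeoD
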