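import Mathlib
import Pool.Agent.LeoD.Defs

/-!
# Interface statements of squad LEOD

Paper: PAPER_LEOD.md.
-/

set_option autoImplicit false

open NumberField NumberField.InfinitePlace NumberField.mixedEmbedding IsDedekindDomain Module
  MeasureTheory Filter Topology
open Pool.Agent.Helper85_Leo Pool.Agent.LeoK Pool.Agent.LeoG Pool.Agent.LeoC

open scoped Classical

namespace Pool.Agent.LeoD

/-- STD: if Leopoldt's conjecture at 3 does not go up from `k` to `K = k(√(3m))` then there is a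
form of the type without zeros. -/
def StdStmt : Prop :=
  ∀ (k : Type) [Field k] [NumberField k] (M : ℕ), ∃ h : HeightOneSpectrum (𝓞 k) → Q4 (𝓞 k),
    (∀ p : HeightOneSpectrum (𝓞 k), (3 : 𝓞 k) ∈ p.asIdeal → HCyc p M (h p)) ∧
    ∀ (K : Type) [Field K] [NumberField K] [Algebra k K] (B : BFr k) (m : 𝓞 k) (r : K),
      finrank k K = 2 → r ^ 2 = algebraMap k K (3 * (m : k)) → (∀ x : k, x ^ 2 ≠ 3 * (m : k)) →
      (∀ x : k, x ^ 2 ≠ -(m : k)) → Fund B.cc m → LeopoldtAt k 3 → ¬ LeopoldtAt K 3 →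
      ∃ F : Q4 (𝓞 k), GIrr F ∧ mm F = (B.kap : 𝓞 k) * m ∧ Typ B M h F

/-- CNTB: the theorem of the counting part. -/
def CntbStmt : Prop :=
  ∀ (k : Type) [Field k] [NumberField k] (M : ℕ) (h : HeightOneSpectrum (𝓞 k) → Q4 (𝓞 k)),
    20 * finrank ℚ k ≤ M →
    (∀ p : HeightOneSpectrum (𝓞 k), (3 : 𝓞 k) ∈ p.asIdeal → HCyc p M (h p)) →
    ∀ (Φ : CFrame k) (N : Set {w : InfinitePlace k // IsReal w}) (B : BFr k)
      (E : Set (HeightOneSpectrum (𝓞 k))),
    (∀ Z : ℝ, (Fam Φ N B E Z).Finite) ∧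
    (∃ c : ℝ, 0 < c ∧ ∀ᶠ Z : ℝ in atTop, c * Z ≤ ((Fam Φ N B E Z).ncard : ℝ)) ∧
    ∀ ε : ℝ, 0 < ε → ∀ᶠ Z : ℝ in atTop,
      ({m | m ∈ Fam Φ N B E Z ∧ ((∃ x : k, x ^ 2 = -(m : k)) ∨ (∃ x : k, x ^ 2 = 3 * (m : k)) ∨
        ∃ F : Q4 (𝓞 k), GIrr F ∧ mm F = (B.kap : 𝓞 k) * m ∧ Typ B M h F)}.ncard : ℝ) ≤
          (1 / (2 * 3 ^ un N) + ε) * ((Fam Φ N B E Z).ncard : ℝ)

/-- The quadratic extensions of `k` in an algebraic closure, ramified exactly at the real places of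
`N`, of absolute discriminant at most `X`. -/
def Qx (k : Type) [Field k] [NumberField k] (N : Set {w : InfinitePlace k // IsReal w}) (X : ℝ) :
    Set (IntermediateField k (AlgebraicClosure k)) :=
  {K | ∃ _ : NumberField K, QuadN N K ∧ ((discr K).natAbs : ℝ) ≤ X}

/-- THD: for every number field `k` and every set `N` of real places all but at most the proportion
`3 ^ (-u) / 2` of the quadratic extensions of `k`, ramified exactly at the real places of `N`,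
ordered by absolute discriminant, are such that Leopoldt's conjecture at 3 goes up. -/
def ThdStmt : Prop :=
  ∀ (k : Type) [Field k] [NumberField k] (N : Set {w : InfinitePlace k // IsReal w}),
    (∀ X : ℝ, (Qx k N X).Finite) ∧
    (∃ c : ℝ, 0 < c ∧ ∀ᶠ X : ℝ in atTop, c * X ≤ ((Qx k N X).ncard : ℝ)) ∧
    ∀ ε : ℝ, 0 < ε → ∀ᶠ X : ℝ in atTop,
      ({K | K ∈ Qx k N X ∧ ∃ _ : NumberField K, LeopoldtAt k 3 ∧ ¬ LeopoldtAt K 3}.ncard : ℝ) ≤
        (1 / (2 * 3 ^ un N) + ε) * ((Qx k N X).ncard : ℝ)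

end Pool.Agent.LeoD
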