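import Mathlib
import Pool.Agent.LeoD.Stmts

/-!
# Module statements of the algebraic part of squad LEOD

`K = k(s)`, `s² = 3m`, `(m) = disc(k(√-m)/k) 𝔠²`.  If Leopoldt's conjecture at 3 holds for `k` and
fails for `K` then there is a binary cubic form of the type `Typ` without zeros.

Paper: PAPER_LEOD.md, sections 1 - 6, and PAPER_LEOD_ALG.md.
-/

set_option autoImplicit false

open NumberField NumberField.InfinitePlace NumberField.mixedEmbedding IsDedekindDomain Module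
  MeasureTheory Filter Topology
open Pool.Agent.Helper85_Leo Pool.Agent.LeoK Pool.Agent.LeoG Pool.Agent.LeoC
open Pool.Agent.Leo3 (Om InLoc FixF)

open scoped Classical

namespace Pool.Agent.LeoD

/-- The quadratic extension `K = k(s)`, `s² = 3m`, with conjugation `c`. -/
structure QExt (k K : Type) [Field k] [NumberField k] [Field K] [NumberField K] [Algebra k K]
    (m : 𝓞 k) (s : 𝓞 K) (c : K ≃ₐ[k] K) : Prop where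
  two : finrank k K = 2
  sq : (s : K) ^ 2 = algebraMap k K (3 * (m : k))
  nsq : ∀ x : k, x ^ 2 ≠ 3 * (m : k)
  conj : c (s : K) = -(s : K)

/-- `y 𝔠 ⊆ 𝓞`. -/
def InvI {k : Type} [Field k] (cc : Ideal (𝓞 k)) (y : k) : Prop :=
  ∀ i ∈ cc, ∃ j : 𝓞 k, y * (i : k) = (j : k)

/-! ## 1. Integers -/

/-- QRD: `3 (x - c x) ∈ s 𝔠⁻¹` for the integers `x` of `K`; the integers `y (q + s) / 2`. -/
def QrdStmt : Prop :=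
  ∀ (k K : Type) [Field k] [NumberField k] [Field K] [NumberField K] [Algebra k K] (B : BFr k)
    (m : 𝓞 k) (s : 𝓞 K) (c : K ≃ₐ[k] K), QExt k K m s c → Fund B.cc m →
    (∀ x : 𝓞 K, ∃ y : k, InvI B.cc (3 * y) ∧ (x : K) - c x = algebraMap k K y * s) ∧
    ∃ q ∈ B.cc, q ^ 2 + m ∈ Ideal.span {(4 : 𝓞 k)} * B.cc ^ 2 ∧ ∀ y : k, InvI B.cc y →
      ∃ w : 𝓞 K, (w : K) = algebraMap k K y * ((algebraMap k K (q : k) + s) / 2)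

/-- CNJ: the conjugation of `K = k(s)`, and `s` is an integer. -/
def CnjStmt : Prop :=
  ∀ (k K : Type) [Field k] [NumberField k] [Field K] [NumberField K] [Algebra k K] (m : 𝓞 k)
    (r : K), finrank k K = 2 → r ^ 2 = algebraMap k K (3 * (m : k)) →
    (∀ x : k, x ^ 2 ≠ 3 * (m : k)) →
    ∃ (s : 𝓞 K) (c : K ≃ₐ[k] K), (s : K) = r ∧ QExt k K m s c

/-- DVP: primes above 3. -/
def DvpStmt : Prop :=
  (∀ (k : Type) [Field k] [NumberField k] (B : BFr k) (m : 𝓞 k) (p : HeightOneSpectrum (𝓞 k)),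
    Fund B.cc m → (3 : 𝓞 k) ∈ p.asIdeal →
      m ∉ p.asIdeal ^ 2 ∧ (2 : 𝓞 k) ∉ p.asIdeal ∧ (B.b : 𝓞 k) ∉ p.asIdeal ∧
      ∀ (M : ℕ) (A : 𝓞 k), 3 * m * A ∈ p.asIdeal ^ (M + 2 * finrank ℚ k + 2) →
        A ∈ p.asIdeal ^ M) ∧
  (∀ (k : Type) [Field k] [NumberField k] (x : 𝓞 k),
    (∀ p : HeightOneSpectrum (𝓞 k), (3 : 𝓞 k) ∈ p.asIdeal → x ∈ p.asIdeal ^ (2 * finrank ℚ k)) →
      (3 : 𝓞 k) ∣ x) ∧
  ∀ (k K : Type) [Field k] [NumberField k] [Field K] [NumberField K] [Algebra k K]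
    (I : Ideal (𝓞 k)) (x : 𝓞 k),
    algebraMap (𝓞 k) (𝓞 K) x ∈ I.map (algebraMap (𝓞 k) (𝓞 K)) → x ∈ I

/-! ## 2. The unit -/

/-- LRA: a failure of Leopoldt's conjecture gives a relation between units of norm 1 which is not
trivial (`f` is a homomorphism to the integers). -/
def LraStmt : Prop :=
  ∀ (k K : Type) [Field k] [NumberField k] [Field K] [NumberField K] [Algebra k K]
    (c : K ≃ₐ[k] K), finrank k K = 2 → c ≠ 1 → LeopoldtAt k 3 → ¬ LeopoldtAt K 3 →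
    ∃ (n : ℕ) (w : Fin n → (𝓞 K)ˣ) (a : Fin n → PadicInt 3) (μ : ℕ → Fin n → ℤ)
      (f : (𝓞 K)ˣ →* Multiplicative ℤ),
      (∀ i, ((w i : 𝓞 K) : K) * c ((w i : 𝓞 K) : K) = 1) ∧
      (∀ i, Tendsto (fun l => ((μ l i : ℤ) : PadicInt 3)) atTop (𝓝 (a i))) ∧
      (∀ N : ℕ, ∀ᶠ l in atTop, (3 : 𝓞 K) ^ N ∣ (((∏ i, w i ^ μ l i : (𝓞 K)ˣ) : 𝓞 K) - 1)) ∧
      ∑ i, ((Multiplicative.toAdd (f (w i)) : ℤ) : PadicInt 3) * a i ≠ 0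

/-- LRB: from the relation to units close to roots of unity, which are not cubes. -/
def LrbStmt : Prop :=
  ∀ (k K : Type) [Field k] [NumberField k] [Field K] [NumberField K] [Algebra k K]
    (c : K ≃ₐ[k] K) (n : ℕ) (w : Fin n → (𝓞 K)ˣ) (a : Fin n → PadicInt 3) (μ : ℕ → Fin n → ℤ)
    (f : (𝓞 K)ˣ →* Multiplicative ℤ), finrank k K = 2 → c ≠ 1 →
    (∀ i, ((w i : 𝓞 K) : K) * c ((w i : 𝓞 K) : K) = 1) →
    (∀ i, Tendsto (fun l => ((μ l i : ℤ) : PadicInt 3)) atTop (𝓝 (a i))) →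
    (∀ N : ℕ, ∀ᶠ l in atTop, (3 : 𝓞 K) ^ N ∣ (((∏ i, w i ^ μ l i : (𝓞 K)ˣ) : 𝓞 K) - 1)) →
    ∑ i, ((Multiplicative.toAdd (f (w i)) : ℤ) : PadicInt 3) * a i ≠ 0 →
    ∃ η : (K →+* Om) → Om, (∀ φ, ∃ j : ℕ, η φ ^ 3 ^ j = 1) ∧
      ∀ N : ℕ, ∃ z : (𝓞 K)ˣ, ((z : 𝓞 K) : K) * c ((z : 𝓞 K) : K) = 1 ∧
        (∀ y : K, y ^ 3 ≠ ((z : 𝓞 K) : K)) ∧
        ∀ φ : K →+* Om, ‖φ ((z : 𝓞 K) : K) - η φ‖ ≤ (3 : ℝ)⁻¹ ^ N

/-! ## 3. Local torsion -/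

/-- `ζ` is a root of unity of 3-power order on which the automorphisms fixing `ψ` act as on
`k_ψ(ω)`: trivially, or as the inversion. -/
structure Tor {k : Type} [Field k] (ψ : k →+* Om) (ω ζ : Om) : Prop where
  ord : ∃ j : ℕ, ζ ^ 3 ^ j = 1
  fix : ∀ ρ : Om ≃ₐ[ℚ_[3]] Om, FixF ψ ρ → ρ ω = ω → ρ ζ = ζ
  inv : ∀ ρ : Om ≃ₐ[ℚ_[3]] Om, FixF ψ ρ → ρ ω = -ω → ρ ζ = ζ⁻¹

/-- `τ` generates the torsion modulo cubes. -/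
def Gen {k : Type} [Field k] (ψ : k →+* Om) (ω τ : Om) : Prop :=
  Tor ψ ω τ ∧ ∀ η : Om, Tor ψ ω η → ∃ g : Om, Tor ψ ω g ∧
    (η = g ^ 3 ∨ η = g ^ 3 * τ ∨ η = g ^ 3 * τ⁻¹)

/-- TAU: a generator exists. -/
def TauStmt : Prop :=
  ∀ (k : Type) [Field k] (ψ : k →+* Om) (ω : Om), ∃ τ : Om, Gen ψ ω τ

/-- What is known about `η φ`: it is 1, or it is in the torsion group and `-m` is a square. -/
def EtaOK {k K : Type} [Field k] [Field K] [Algebra k K] (s : K) (ω : Om) (φ : K →+* Om)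
    (η : Om) : Prop :=
  η = 1 ∨ (Tor (φ.comp (algebraMap k K)) ω η ∧
    ∃ μ : Om, InLoc (φ.comp (algebraMap k K)) μ ∧ φ s = μ * ω)

/-- ETA: properties of the limits of the units. -/
def EtaStmt : Prop :=
  ∀ (k K : Type) [Field k] [NumberField k] [Field K] [NumberField K] [Algebra k K] (m : 𝓞 k)
    (s : 𝓞 K) (c : K ≃ₐ[k] K), QExt k K m s c → ∀ η : (K →+* Om) → Om,
    (∀ φ, ∃ j : ℕ, η φ ^ 3 ^ j = 1) →
    (∀ N : ℕ, ∃ z : K, z * c z = 1 ∧ ∀ φ : K →+* Om, ‖φ z - η φ‖ ≤ (3 : ℝ)⁻¹ ^ N) →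
    ∀ ω : Om, ω ^ 2 = -3 → ∀ φ : K →+* Om, EtaOK (k := k) (s : K) ω φ (η φ)

/-! ## 4. Approximation -/

/-- `ψ` belongs to the prime `p`. -/
def Ov {k : Type} [Field k] [NumberField k] (p : HeightOneSpectrum (𝓞 k)) (ψ : k →+* Om) : Prop :=
  ∀ x : 𝓞 k, x ∈ p.asIdeal ↔ ‖ψ (x : k)‖ < 1

/-- APO: integral elements of the completion are approximated by integers; small integers are in
powers of the prime. -/
def ApoStmt : Prop :=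
  ∀ (k : Type) [Field k] [NumberField k] (p : HeightOneSpectrum (𝓞 k)) (ψ : k →+* Om),
    (3 : 𝓞 k) ∈ p.asIdeal → Ov p ψ →
    (∀ (A : Om) (N : ℕ), InLoc ψ A → ‖A‖ ≤ 1 → ∃ x : 𝓞 k, ‖ψ (x : k) - A‖ ≤ (3 : ℝ)⁻¹ ^ N) ∧
    ∀ (x : 𝓞 k) (N : ℕ), ‖ψ (x : k)‖ ≤ (3 : ℝ)⁻¹ ^ N → x ∈ p.asIdeal ^ N

/-- INT: elements of `K` that are integral at the two embeddings above `ψ`; approximation of
`A ± B s`; small integers of `K` are in powers of the prime of `k`. -/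
def IntStmt : Prop :=
  ∀ (k K : Type) [Field k] [NumberField k] [Field K] [NumberField K] [Algebra k K] (m : 𝓞 k)
    (s : 𝓞 K) (c : K ≃ₐ[k] K), QExt k K m s c →
    ∀ (p : HeightOneSpectrum (𝓞 k)) (φ : K →+* Om), (3 : 𝓞 k) ∈ p.asIdeal →
    Ov p (φ.comp (algebraMap k K)) →
    (∀ x : K, ‖φ x‖ ≤ 1 → ‖φ (c x)‖ ≤ 1 → ∃ (d : 𝓞 k) (y : 𝓞 K), d ∉ p.asIdeal ∧
      algebraMap k K (d : k) * x = y) ∧
    (∀ (A B : Om) (N : ℕ), InLoc (φ.comp (algebraMap k K)) A →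
      InLoc (φ.comp (algebraMap k K)) B → ‖A + B * φ s‖ ≤ 1 → ‖A - B * φ s‖ ≤ 1 →
      ∃ x : 𝓞 K, ‖φ (x : K) - (A + B * φ s)‖ ≤ (3 : ℝ)⁻¹ ^ N ∧
        ‖φ (c (x : K)) - (A - B * φ s)‖ ≤ (3 : ℝ)⁻¹ ^ N) ∧
    ∀ (x : 𝓞 K) (N : ℕ), ‖φ (x : K)‖ ≤ (3 : ℝ)⁻¹ ^ N → ‖φ (c (x : K))‖ ≤ (3 : ℝ)⁻¹ ^ N →
      x ∈ (p.asIdeal ^ N).map (algebraMap (𝓞 k) (𝓞 K))

/-- The local condition for `z t³` at the prime `p`. -/
def ZT {k K : Type} [Field k] [NumberField k] [Field K] [NumberField K] [Algebra k K] (m : 𝓞 k)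
    (s : 𝓞 K) (p : HeightOneSpectrum (𝓞 k)) (M : ℕ) (P Q : 𝓞 k) (y : 𝓞 K) : Prop :=
  y - 1 ∈ (p.asIdeal ^ M).map (algebraMap (𝓞 k) (𝓞 K)) ∨
  ∃ μ : 𝓞 k, μ ^ 2 + m ∈ p.asIdeal ^ M ∧
    3 * algebraMap (𝓞 k) (𝓞 K) μ * (y - algebraMap (𝓞 k) (𝓞 K) P) - algebraMap (𝓞 k) (𝓞 K) Q * s ∈
      (p.asIdeal ^ M).map (algebraMap (𝓞 k) (𝓞 K))

/-- LCV: `z t³` at one prime above 3. -/
def LcvStmt : Prop :=
  ∀ (k K : Type) [Field k] [NumberField k] [Field K] [NumberField K] [Algebra k K] (m : 𝓞 k)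
    (s : 𝓞 K) (c : K ≃ₐ[k] K), QExt k K m s c →
    ∀ (p : HeightOneSpectrum (𝓞 k)) (φ : K →+* Om), (3 : 𝓞 k) ∈ p.asIdeal →
    Ov p (φ.comp (algebraMap k K)) → ∀ ω τ : Om, ω ^ 2 = -3 →
    Gen (φ.comp (algebraMap k K)) ω τ → ∀ (M : ℕ) (P Q : 𝓞 k),
    ‖φ (algebraMap k K (P : k)) - (τ + τ⁻¹) / 2‖ ≤ (3 : ℝ)⁻¹ ^ M →
    ‖φ (algebraMap k K (Q : k)) - 3 * (τ - τ⁻¹) / (2 * ω)‖ ≤ (3 : ℝ)⁻¹ ^ M →
    ∀ η : Om, EtaOK (k := k) (s : K) ω φ η → ∀ z : (𝓞 K)ˣ,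
    ((z : 𝓞 K) : K) * c ((z : 𝓞 K) : K) = 1 → ‖φ ((z : 𝓞 K) : K) - η‖ ≤ (3 : ℝ)⁻¹ ^ M →
    ∃ (t : 𝓞 K) (ν : 𝓞 k), (t : K) * c (t : K) = algebraMap k K (ν : k) ∧
      ν - 1 ∈ p.asIdeal ^ M ∧ ZT m s p M P Q ((z : 𝓞 K) * t ^ 3)

/-- APT: the unit `z`, and `t` with `z t³` close to 1 or to the generator of the torsion at the
primes above 3. -/
def AptStmt : Prop :=
  ∀ (k : Type) [Field k] [NumberField k] (M : ℕ), ∃ P Q : HeightOneSpectrum (𝓞 k) → 𝓞 k,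
    (∀ p : HeightOneSpectrum (𝓞 k), (3 : 𝓞 k) ∈ p.asIdeal →
      3 * P p ^ 2 + Q p ^ 2 - 3 ∈ p.asIdeal ^ M) ∧
    ∀ (K : Type) [Field K] [NumberField K] [Algebra k K] (m : 𝓞 k) (s : 𝓞 K) (c : K ≃ₐ[k] K),
      QExt k K m s c → LeopoldtAt k 3 → ¬ LeopoldtAt K 3 →
      ∃ (z : (𝓞 K)ˣ) (t : 𝓞 K) (ν : 𝓞 k), ((z : 𝓞 K) : K) * c ((z : 𝓞 K) : K) = 1 ∧
        (∀ y : K, y ^ 3 ≠ ((z : 𝓞 K) : K)) ∧ (t : K) * c (t : K) = algebraMap k K (ν : k) ∧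
        ∀ p : HeightOneSpectrum (𝓞 k), (3 : 𝓞 k) ∈ p.asIdeal →
          ν - 1 ∈ p.asIdeal ^ M ∧ ZT m s p M (P p) (Q p) ((z : 𝓞 K) * t ^ 3)

/-! ## 5. The lattice -/

/-- LAT: the lattice `t L = (t) ∩ {x : x - c x ∈ s 𝔠⁻¹} = 𝓞 U + 𝔟 V`. -/
def LatStmt : Prop :=
  ∀ (k K : Type) [Field k] [NumberField k] [Field K] [NumberField K] [Algebra k K] (B : BFr k)
    (m : 𝓞 k) (s : 𝓞 K) (c : K ≃ₐ[k] K), QExt k K m s c → Fund B.cc m →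
    ∀ (t : 𝓞 K) (ν : 𝓞 k), (t : K) * c (t : K) = algebraMap k K (ν : k) → (3 : 𝓞 k) ∣ ν - 1 →
      ν ≠ 0 →
      ∃ (U V : K) (X Y X' Y' : 𝓞 k), (∃ u : 𝓞 K, U = t * u) ∧
        (∀ β ∈ B.bb, ∃ v : 𝓞 K, algebraMap k K (β : k) * V = t * v) ∧
        (B.b : K) * (U * c V - V * c U) = algebraMap k K (ν : k) * s ∧
        2 * (B.b : K) * U = algebraMap k K (X : k) + algebraMap k K (Y : k) * s ∧
        2 * (B.b : K) ^ 2 * V = algebraMap k K (X' : k) + algebraMap k K (Y' : k) * s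

/-! ## 6. The form -/

/-- The form attached to `z`, `t` and the basis `U, V`. -/
def FOf {k K : Type} [Field k] [NumberField k] [Field K] [NumberField K] [Algebra k K] (B : BFr k)
    (s : 𝓞 K) (c : K ≃ₐ[k] K) (y U V : K) (F : Q4 (𝓞 k)) : Prop :=
  ∀ X Y : k, algebraMap k K (gval (fun i => (F i : k)) X Y) * (s : K) =
    3 * (B.b : K) ^ 3 * ((algebraMap k K X * U + algebraMap k K Y * V) ^ 3 / y -
      c ((algebraMap k K X * U + algebraMap k K Y * V) ^ 3 / y))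

/-- FRM: the form, without the conditions at 3. -/
def FrmStmt : Prop :=
  ∀ (k K : Type) [Field k] [NumberField k] [Field K] [NumberField K] [Algebra k K] (B : BFr k)
    (m : 𝓞 k) (s : 𝓞 K) (c : K ≃ₐ[k] K), QExt k K m s c →
    (∀ x : 𝓞 K, ∃ y : k, InvI B.cc (3 * y) ∧ (x : K) - c x = algebraMap k K y * s) →
    ∀ (z : (𝓞 K)ˣ) (t : 𝓞 K) (ν : 𝓞 k), ((z : 𝓞 K) : K) * c ((z : 𝓞 K) : K) = 1 →
    (∀ y : K, y ^ 3 ≠ ((z : 𝓞 K) : K)) → (t : K) * c (t : K) = algebraMap k K (ν : k) → ν ≠ 0 →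
    ∀ U V : K, (∃ u : 𝓞 K, U = t * u) →
    (∀ β ∈ B.bb, ∃ v : 𝓞 K, algebraMap k K (β : k) * V = t * v) →
    (B.b : K) * (U * c V - V * c U) = algebraMap k K (ν : k) * s →
    ∃ F : Q4 (𝓞 k), FOf B s c (((z : 𝓞 K) : K) * (t : K) ^ 3) U V F ∧ GIrr F ∧
      mm F = (B.kap : 𝓞 k) * m ∧ F 0 ∈ Ideal.span {(B.b : 𝓞 k) ^ 2} * B.bb ∧
      F 1 ∈ Ideal.span {(B.b : 𝓞 k) ^ 2} ∧ F 2 ∈ Ideal.span {(B.b : 𝓞 k)} * B.cc ∧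
      F 3 ∈ B.cc ^ 2

/-- The coefficients of the cube of the linear form `u x + v y`. -/
def cu {A : Type} [CommRing A] (u v : A) : Fin 4 → A := ![u ^ 3, 3 * u ^ 2 * v, 3 * u * v ^ 2, v ^ 3]

/-- FLC: the coefficients of the form in terms of the coordinates. -/
def FlcStmt : Prop :=
  ∀ (k K : Type) [Field k] [NumberField k] [Field K] [NumberField K] [Algebra k K] (B : BFr k)
    (m : 𝓞 k) (s : 𝓞 K) (c : K ≃ₐ[k] K), QExt k K m s c →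
    ∀ (z : (𝓞 K)ˣ) (t : 𝓞 K) (ν : 𝓞 k), ((z : 𝓞 K) : K) * c ((z : 𝓞 K) : K) = 1 →
    (t : K) * c (t : K) = algebraMap k K (ν : k) → ν ≠ 0 → ∀ (U V : K) (X Y X' Y' : 𝓞 k),
    (B.b : K) * (U * c V - V * c U) = algebraMap k K (ν : k) * s →
    2 * (B.b : K) * U = algebraMap k K (X : k) + algebraMap k K (Y : k) * s →
    2 * (B.b : K) ^ 2 * V = algebraMap k K (X' : k) + algebraMap k K (Y' : k) * s →
    ∀ F : Q4 (𝓞 k), FOf B s c (((z : 𝓞 K) : K) * (t : K) ^ 3) U V F →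
      X * Y' - X' * Y = -(2 * (B.b : 𝓞 k) ^ 2 * ν) ∧
      ∃ W : 𝓞 K, (W : K) = c (((z : 𝓞 K) : K) * (t : K) ^ 3) ∧ ∀ i : Fin 4,
        8 * (B.b : 𝓞 K) ^ 3 * algebraMap (𝓞 k) (𝓞 K) (ν ^ 3 * F i) * s =
          3 * (cu ((B.b : 𝓞 K) * (algebraMap (𝓞 k) (𝓞 K) X + algebraMap (𝓞 k) (𝓞 K) Y * s))
              (algebraMap (𝓞 k) (𝓞 K) X' + algebraMap (𝓞 k) (𝓞 K) Y' * s) i * W -
            cu ((B.b : 𝓞 K) * (algebraMap (𝓞 k) (𝓞 K) X - algebraMap (𝓞 k) (𝓞 K) Y * s))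
              (algebraMap (𝓞 k) (𝓞 K) X' - algebraMap (𝓞 k) (𝓞 K) Y' * s) i *
              ((z : 𝓞 K) * t ^ 3))

/-- The form `h` for `P`, `Q` and an inverse `i` of 2. -/
def hPQ {A : Type} [CommRing A] (P Q i : A) : Q4 A :=
  ![-(2 * Q), -(9 * P), 9 * i * Q, 9 * i ^ 2 * P]

/-- HCY: the form `h` is as needed. -/
def HcyStmt : Prop :=
  ∀ (k : Type) [Field k] [NumberField k] (p : HeightOneSpectrum (𝓞 k)) (M : ℕ) (P Q i : 𝓞 k),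
    3 * P ^ 2 + Q ^ 2 - 3 ∈ p.asIdeal ^ M → 2 * i - 1 ∈ p.asIdeal ^ M → HCyc p M (hPQ P Q i)

/-- FLA: the local condition in the first case. -/
def FlaStmt : Prop :=
  ∀ (k K : Type) [Field k] [NumberField k] [Field K] [NumberField K] [Algebra k K] (B : BFr k)
    (m : 𝓞 k) (s : 𝓞 K) (c : K ≃ₐ[k] K), QExt k K m s c → Fund B.cc m →
    ∀ (p : HeightOneSpectrum (𝓞 k)) (M : ℕ), (3 : 𝓞 k) ∈ p.asIdeal →
    ∀ (ν X Y X' Y' : 𝓞 k) (Z W : 𝓞 K) (F : Q4 (𝓞 k)), ν - 1 ∈ p.asIdeal →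
    X * Y' - X' * Y = -(2 * (B.b : 𝓞 k) ^ 2 * ν) →
    (∀ i : Fin 4,
        8 * (B.b : 𝓞 K) ^ 3 * algebraMap (𝓞 k) (𝓞 K) (ν ^ 3 * F i) * s =
          3 * (cu ((B.b : 𝓞 K) * (algebraMap (𝓞 k) (𝓞 K) X + algebraMap (𝓞 k) (𝓞 K) Y * s))
              (algebraMap (𝓞 k) (𝓞 K) X' + algebraMap (𝓞 k) (𝓞 K) Y' * s) i * W -
            cu ((B.b : 𝓞 K) * (algebraMap (𝓞 k) (𝓞 K) X - algebraMap (𝓞 k) (𝓞 K) Y * s))
              (algebraMap (𝓞 k) (𝓞 K) X' - algebraMap (𝓞 k) (𝓞 K) Y' * s) i * Z)) →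
    Z - 1 ∈ (p.asIdeal ^ (M + 2 * finrank ℚ k + 2)).map (algebraMap (𝓞 k) (𝓞 K)) →
    W - 1 ∈ (p.asIdeal ^ (M + 2 * finrank ℚ k + 2)).map (algebraMap (𝓞 k) (𝓞 K)) →
      (∀ i, F i ∈ Ideal.span {(9 : 𝓞 k)} ⊔ p.asIdeal ^ M) ∧
        ∃ x y : 𝓞 k, ¬ (x ∈ p.asIdeal ∧ y ∈ p.asIdeal) ∧ gval F x y ∈ p.asIdeal ^ M

/-- FLB: the local condition in the second case. -/
def FlbStmt : Prop :=
  ∀ (k K : Type) [Field k] [NumberField k] [Field K] [NumberField K] [Algebra k K] (B : BFr k)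
    (m : 𝓞 k) (s : 𝓞 K) (c : K ≃ₐ[k] K), QExt k K m s c → Fund B.cc m →
    ∀ (p : HeightOneSpectrum (𝓞 k)) (M : ℕ), (3 : 𝓞 k) ∈ p.asIdeal →
    ∀ (ν X Y X' Y' : 𝓞 k) (Z W : 𝓞 K) (F : Q4 (𝓞 k)),
    ν - 1 ∈ p.asIdeal ^ (M + 2 * finrank ℚ k + 2) →
    X * Y' - X' * Y = -(2 * (B.b : 𝓞 k) ^ 2 * ν) →
    (∀ i : Fin 4,
        8 * (B.b : 𝓞 K) ^ 3 * algebraMap (𝓞 k) (𝓞 K) (ν ^ 3 * F i) * s =
          3 * (cu ((B.b : 𝓞 K) * (algebraMap (𝓞 k) (𝓞 K) X + algebraMap (𝓞 k) (𝓞 K) Y * s))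
              (algebraMap (𝓞 k) (𝓞 K) X' + algebraMap (𝓞 k) (𝓞 K) Y' * s) i * W -
            cu ((B.b : 𝓞 K) * (algebraMap (𝓞 k) (𝓞 K) X - algebraMap (𝓞 k) (𝓞 K) Y * s))
              (algebraMap (𝓞 k) (𝓞 K) X' - algebraMap (𝓞 k) (𝓞 K) Y' * s) i * Z)) →
    ∀ P Q i μ : 𝓞 k, 2 * i - 1 ∈ p.asIdeal ^ (M + 2 * finrank ℚ k + 2) →
    μ ^ 2 + m ∈ p.asIdeal ^ (M + 2 * finrank ℚ k + 2) →
    3 * algebraMap (𝓞 k) (𝓞 K) μ * (Z - algebraMap (𝓞 k) (𝓞 K) P) -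
      algebraMap (𝓞 k) (𝓞 K) Q * s ∈
      (p.asIdeal ^ (M + 2 * finrank ℚ k + 2)).map (algebraMap (𝓞 k) (𝓞 K)) →
    3 * algebraMap (𝓞 k) (𝓞 K) μ * (W - algebraMap (𝓞 k) (𝓞 K) P) +
      algebraMap (𝓞 k) (𝓞 K) Q * s ∈
      (p.asIdeal ^ (M + 2 * finrank ℚ k + 2)).map (algebraMap (𝓞 k) (𝓞 K)) →
      InOrb p M (hPQ P Q i) F

end Pool.Agent.LeoD
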