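import Mathlib
import Pool.Agent.LeoD.Stmts

/-!
# Module statements of the fields part of squad LEOD

Paper: PAPER_LEOD.md, section 11, and PAPER_LEOD_FIELDS.md.
-/

set_option autoImplicit false

open NumberField NumberField.InfinitePlace NumberField.mixedEmbedding IsDedekindDomain Module
  MeasureTheory Filter Topology
open Pool.Agent.Helper85_Leo Pool.Agent.LeoK Pool.Agent.LeoG Pool.Agent.LeoC

open scoped Classical

namespace Pool.Agent.LeoD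

/-! ## Ideals: the relative discriminant -/

/-- `-m` is a square modulo `4 I²`, with a root in `I`. -/
def SqM {k : Type} [Field k] (I : Ideal (𝓞 k)) (m : 𝓞 k) : Prop :=
  ∃ q ∈ I, q ^ 2 + m ∈ Ideal.span {(4 : 𝓞 k)} * I ^ 2

/-- LCG: the condition `SqM` is local. -/
def LcgStmt : Prop :=
  ∀ (k : Type) [Field k] [NumberField k] (I : Ideal (𝓞 k)) (m : 𝓞 k), I ≠ ⊥ →
    (∀ p : HeightOneSpectrum (𝓞 k), ∃ t : 𝓞 k, t ∉ p.asIdeal ∧ SqM I (t ^ 2 * m)) → SqM I m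

/-- FNB: basic facts on `Fund`. -/
def FnbStmt : Prop :=
  ∀ (k : Type) [Field k] [NumberField k],
    (∀ (I : Ideal (𝓞 k)) (m : 𝓞 k),
      Fund I m ↔ SqM I m ∧ ∀ p : HeightOneSpectrum (𝓞 k), ¬ SqM (I * p.asIdeal) m) ∧
    (∀ (I : Ideal (𝓞 k)) (m : 𝓞 k), Fund I m → I ≠ ⊥ ∧ m ≠ 0 ∧ m ∈ I ^ 2 ∧
      ∀ p : HeightOneSpectrum (𝓞 k), (2 : 𝓞 k) ∉ p.asIdeal → m ∉ (I * p.asIdeal) ^ 2) ∧
    (∀ (I J : Ideal (𝓞 k)) (m : 𝓞 k), SqM I m → I ≤ J → SqM J m) ∧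
    (∀ (I J : Ideal (𝓞 k)) (m : 𝓞 k), I ≠ ⊥ → J ≠ ⊥ → SqM I m → SqM J m → SqM (I ⊓ J) m) ∧
    (∀ (I J : Ideal (𝓞 k)) (m m' α β : 𝓞 k), α ≠ 0 → β ≠ 0 →
      Ideal.span {α} * I = Ideal.span {β} * J → β ^ 2 * m' = α ^ 2 * m → Fund I m → Fund J m') ∧
    (∀ (I J : Ideal (𝓞 k)) (m m' α β : 𝓞 k), α ≠ 0 → β ≠ 0 → Fund I m → Fund J m' →
      β ^ 2 * m' = α ^ 2 * m → Ideal.span {α} * I = Ideal.span {β} * J) ∧
    ∀ a : k, a ≠ 0 → ∃ (I : Ideal (𝓞 k)) (m : 𝓞 k) (t : k), t ≠ 0 ∧ (m : k) = t ^ 2 * a ∧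
      Fund I m

/-- TW3: passage from `k(√-m)` to `k(√(3m))`: `E` is the set of the primes above 3 dividing `m`. -/
def Tw3Stmt : Prop :=
  ∀ (k : Type) [Field k] [NumberField k] (E : Set (HeightOneSpectrum (𝓞 k))),
    ∃ T : Ideal (𝓞 k), T ≠ ⊥ ∧ ∀ (I : Ideal (𝓞 k)) (m : 𝓞 k),
      (∀ p : HeightOneSpectrum (𝓞 k), (3 : 𝓞 k) ∈ p.asIdeal → ¬ I ≤ p.asIdeal) → Fund I m →
      (∀ p : HeightOneSpectrum (𝓞 k), (3 : 𝓞 k) ∈ p.asIdeal → (m ∈ p.asIdeal ↔ p ∈ E)) →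
      Fund (I * T) (-(3 * m))

/-- RPS: one `BFr` for every ideal class. -/
def RpsStmt : Prop :=
  ∀ (k : Type) [Field k] [NumberField k], ∃ (J : Type) (_ : Fintype J) (B : J → BFr k),
    Nonempty J ∧ (∀ j, (B j).cc ≠ ⊥ ∧
      ∀ p : HeightOneSpectrum (𝓞 k), (3 : 𝓞 k) ∈ p.asIdeal → ¬ (B j).cc ≤ p.asIdeal) ∧
    ∀ I : Ideal (𝓞 k), I ≠ ⊥ → ∃! j : J, ∃ α β : 𝓞 k, α ≠ 0 ∧ β ≠ 0 ∧
      Ideal.span {α} * I = Ideal.span {β} * (B j).cc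

/-- PRM: parametrisation of `k^× / k^×²` by the pairs of a class and `m` with `Fund`. -/
def PrmStmt : Prop :=
  ∀ (k : Type) [Field k] [NumberField k] (J : Type) (B : J → BFr k),
    (∀ I : Ideal (𝓞 k), I ≠ ⊥ → ∃! j : J, ∃ α β : 𝓞 k, α ≠ 0 ∧ β ≠ 0 ∧
      Ideal.span {α} * I = Ideal.span {β} * (B j).cc) →
    (∀ a : k, a ≠ 0 → ∃ (j : J) (m : 𝓞 k) (t : k), t ≠ 0 ∧ (m : k) = t ^ 2 * a ∧
      Fund (B j).cc m) ∧
    ∀ (j j' : J) (m m' : 𝓞 k) (t : k), Fund (B j).cc m → Fund (B j').cc m' →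
      (m' : k) = t ^ 2 * m → j = j' ∧ ∃ η : (𝓞 k)ˣ, m' = (η : 𝓞 k) ^ 2 * m

/-! ## The discriminant -/

/-- OKS: the integers of `k(√D)`. -/
def OksStmt : Prop :=
  ∀ (k K : Type) [Field k] [NumberField k] [Field K] [NumberField K] [Algebra k K]
    (I : Ideal (𝓞 k)) (D q : 𝓞 k) (s : K), finrank k K = 2 → s ^ 2 = algebraMap k K (D : k) →
    (∀ x : k, x ^ 2 ≠ (D : k)) → Fund I (-D) → q ∈ I →
    q ^ 2 + -D ∈ Ideal.span {(4 : 𝓞 k)} * I ^ 2 →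
    (∀ x : 𝓞 K, ∃ (a : 𝓞 k) (y : k), (∀ i ∈ I, ∃ c : 𝓞 k, y * (i : k) = c) ∧
      (x : K) = algebraMap k K (a : k) + algebraMap k K y * ((algebraMap k K (q : k) + s) / 2)) ∧
    ∀ y : k, (∀ i ∈ I, ∃ c : 𝓞 k, y * (i : k) = c) →
      ∃ x : 𝓞 K, (x : K) = algebraMap k K y * ((algebraMap k K (q : k) + s) / 2)

/-- DIF: the different of `k(√D)`. -/
def DifStmt : Prop :=
  ∀ (k K : Type) [Field k] [NumberField k] [Field K] [NumberField K] [Algebra k K]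
    (I : Ideal (𝓞 k)) (D : 𝓞 k) (s : 𝓞 K), finrank k K = 2 →
    s ^ 2 = algebraMap (𝓞 k) (𝓞 K) D → (∀ x : k, x ^ 2 ≠ (D : k)) → Fund I (-D) →
    differentIdeal (𝓞 k) (𝓞 K) * I.map (algebraMap (𝓞 k) (𝓞 K)) = Ideal.span {s}

/-- DSK: the discriminant of `k(√D)`. -/
def DskStmt : Prop :=
  ∀ (k K : Type) [Field k] [NumberField k] [Field K] [NumberField K] [Algebra k K]
    (I : Ideal (𝓞 k)) (D : 𝓞 k) (s : K), finrank k K = 2 → s ^ 2 = algebraMap k K (D : k) →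
    (∀ x : k, x ^ 2 ≠ (D : k)) → Fund I (-D) →
    (discr K).natAbs * Ideal.absNorm I ^ 2 = (discr k).natAbs ^ 2 * (Algebra.norm ℤ D).natAbs

/-! ## The fields -/

/-- The field generated by the square roots of `a` in the algebraic closure. -/
noncomputable def sqF {k : Type} [Field k] (a : k) : IntermediateField k (AlgebraicClosure k) :=
  IntermediateField.adjoin k {y | y ^ 2 = algebraMap k (AlgebraicClosure k) a}

/-- QUA: quadratic extensions in the algebraic closure. -/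
def QuaStmt : Prop :=
  ∀ (k : Type) [Field k] [NumberField k],
    (∀ K : IntermediateField k (AlgebraicClosure k), finrank k K = 2 →
      ∃ a : k, (∀ x : k, x ^ 2 ≠ a) ∧ K = sqF a) ∧
    (∀ a : k, (∀ x : k, x ^ 2 ≠ a) → NumberField (sqF a) ∧ finrank k (sqF a) = 2 ∧
      ∃ r : sqF a, r ^ 2 = algebraMap k (sqF a) a) ∧
    ∀ a a' : k, (∀ x : k, x ^ 2 ≠ a) → (∀ x : k, x ^ 2 ≠ a') →
      (sqF a = sqF a' ↔ ∃ t : k, a' = t ^ 2 * a)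

/-- COF: the number of elements of the cone in a class modulo squares of units. -/
def CofStmt : Prop :=
  ∀ (k : Type) [Field k] [NumberField k], ∃ w : ℕ, 0 < w ∧ ∀ (Φ : CFrame k) (m : 𝓞 k), m ≠ 0 →
    {m' : 𝓞 k | (∃ η : (𝓞 k)ˣ, m' = (η : 𝓞 k) ^ 2 * m) ∧
      av (mixedEmbedding k (m' : k)) ∈ Φ.F}.ncard = w

/-- PAR: the quadratic extensions of `k` and the families. -/
def ParStmt : Prop :=
  ∀ (k : Type) [Field k] [NumberField k] (Φ : CFrame k)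
    (N : Set {w : InfinitePlace k // IsReal w}),
    (∀ (B : BFr k) (E : Set (HeightOneSpectrum (𝓞 k))) (Z : ℝ), (Fam Φ N B E Z).Finite) →
    ∃ (J : Type) (_ : Fintype J) (B : J → BFr k) (E : J → Set (HeightOneSpectrum (𝓞 k)))
      (ρ : J → ℝ) (w : ℕ), Nonempty J ∧ 0 < w ∧ (∀ j, 0 < ρ j) ∧
      ∀ X : ℝ, (Qx k N X).Finite ∧ ∀ P : IntermediateField k (AlgebraicClosure k) → Prop,
        w * {K | K ∈ Qx k N X ∧ P K}.ncard =
          ∑ j, {m | m ∈ Fam Φ N (B j) (E j) (ρ j * X) ∧ (∀ x : k, x ^ 2 ≠ 3 * (m : k)) ∧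
            P (sqF (3 * (m : k)))}.ncard

end Pool.Agent.LeoD
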