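import Mathlib
import Pool.Agent.LeoD.FieldStmts

/-!
# Totally real quartic fields with a quadratic subfield (squad LEOD, corollary of THD)

Paper: PAPER_LEOD_QUARTIC.md.
-/

set_option autoImplicit false

open NumberField NumberField.InfinitePlace NumberField.mixedEmbedding IsDedekindDomain Module
  MeasureTheory Filter Topology
open Pool.Agent.Helper85_Leo Pool.Agent.LeoK Pool.Agent.LeoG Pool.Agent.LeoC

open scoped Classical

namespace Pool.Agent.LeoD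

/-- The totally real quartic fields of discriminant at most `X` which have a quadratic subfield. -/
def Q4x (X : ℝ) : Set (IntermediateField ℚ (AlgebraicClosure ℚ)) :=
  {K | ∃ _ : NumberField K, finrank ℚ K = 4 ∧ IsTotallyReal K ∧ ((discr K).natAbs : ℝ) ≤ X ∧
    ∃ k : IntermediateField ℚ (AlgebraicClosure ℚ), k ≤ K ∧ finrank ℚ k = 2}

/-- QUAR: at least half of all totally real quartic fields with a quadratic subfield, ordered by
discriminant, satisfy Leopoldt's conjecture at 3. -/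
def QuarStmt : Prop :=
  (∀ X : ℝ, (Q4x X).Finite) ∧
  (∃ c : ℝ, 0 < c ∧ ∀ᶠ X : ℝ in atTop, c * X ≤ ((Q4x X).ncard : ℝ)) ∧
  ∀ ε : ℝ, 0 < ε → ∀ᶠ X : ℝ in atTop,
    ({K | K ∈ Q4x X ∧ ∃ _ : NumberField K, ¬ LeopoldtAt K 3}.ncard : ℝ) ≤
      (1 / 2 + ε) * ((Q4x X).ncard : ℝ)

/-- The quadratic field of `d`. -/
noncomputable def rq (d : ℕ) : IntermediateField ℚ (AlgebraicClosure ℚ) := sqF (d : ℚ)

/-- QRF: the real quadratic fields. -/
def QrfStmt : Prop :=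
  (∀ k : IntermediateField ℚ (AlgebraicClosure ℚ), finrank ℚ k = 2 → ∀ _ : NumberField k,
    IsTotallyReal k → ∃ d : ℕ, Squarefree d ∧ 1 < d ∧ k = rq d) ∧
  ∀ d : ℕ, Squarefree d → 1 < d → ∃ _ : NumberField (rq d), finrank ℚ (rq d) = 2 ∧
    IsTotallyReal (rq d) ∧ (d : ℤ) ≤ discr (rq d) ∧ discr (rq d) ≤ 4 * d ∧
    ∃ s : 𝓞 (rq d), s ^ 2 = (d : 𝓞 (rq d))

/-- QL2: Leopoldt's conjecture for real quadratic fields. -/
def Ql2Stmt : Prop :=
  ∀ (k : Type) [Field k] [NumberField k], finrank ℚ k = 2 → IsTotallyReal k → LeopoldtAt k 3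

/-- QTR: the quartic fields over a real quadratic field and the quadratic extensions of it. -/
def QtrStmt : Prop :=
  ∀ (k : IntermediateField ℚ (AlgebraicClosure ℚ)) (_ : NumberField k), finrank ℚ k = 2 →
    IsTotallyReal k → ∀ (X : ℝ), (Qx k ∅ X).Finite →
    {K | K ∈ Q4x X ∧ k ≤ K}.Finite ∧ {K | K ∈ Q4x X ∧ k ≤ K}.ncard = (Qx k ∅ X).ncard ∧
      {K | K ∈ Q4x X ∧ k ≤ K ∧ ∃ _ : NumberField K, ¬ LeopoldtAt K 3}.ncard =
        {K | K ∈ Qx k ∅ X ∧ ∃ _ : NumberField K, ¬ LeopoldtAt K 3}.ncard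

/-- QSQ: subfields: the square of the discriminant of a quadratic subfield divides the
discriminant, quadratic subfields are totally real, and two different quadratic subfields generate
the field. -/
def QsqStmt : Prop :=
  ∀ (X : ℝ) (K : IntermediateField ℚ (AlgebraicClosure ℚ)), K ∈ Q4x X →
    (∀ k : IntermediateField ℚ (AlgebraicClosure ℚ), k ≤ K → finrank ℚ k = 2 →
      ∃ _ : NumberField k, IsTotallyReal k ∧ ((discr k).natAbs : ℝ) ^ 2 ≤ X) ∧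
    ∀ k k' : IntermediateField ℚ (AlgebraicClosure ℚ), k ≤ K → k' ≤ K → finrank ℚ k = 2 →
      finrank ℚ k' = 2 → k ≠ k' → k ⊔ k' = K

/-! ## Uniform bounds -/

/-- QXB: the number of quadratic extensions of bounded discriminant. -/
def QxbStmt : Prop :=
  ∀ (k : Type) [Field k] [NumberField k] (N : Set {w : InfinitePlace k // IsReal w}) (X : ℝ),
    (Qx k N X).Finite ∧
    (Qx k N X).ncard ≤ 2 ^ (nrRealPlaces k + nrComplexPlaces k) * Fintype.card (ClassGroup (𝓞 k)) *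
      {I : Ideal (𝓞 k) | I ≠ ⊥ ∧
        ((discr k).natAbs : ℝ) ^ 2 * (Ideal.absNorm I : ℝ) ≤ X}.ncard

/-- IDQ: the number of ideals of given norm in a quadratic field. -/
def IdqStmt : Prop :=
  ∀ (k : Type) [Field k] [NumberField k] (d : ℕ) (s : 𝓞 k), finrank ℚ k = 2 → Squarefree d →
    1 < d → s ^ 2 = (d : 𝓞 k) →
    (∀ n : ℕ, 0 < n → {I : Ideal (𝓞 k) | Ideal.absNorm I = n}.ncard ≤ n.divisors.card) ∧
    (∀ e n : ℕ, Odd n → {I : Ideal (𝓞 k) | Ideal.absNorm I = 2 ^ e * n}.ncard ≤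
      (e + 1) * {I : Ideal (𝓞 k) | Ideal.absNorm I = n}.ncard) ∧
    ∀ n : ℕ, Odd n → ({I : Ideal (𝓞 k) | Ideal.absNorm I = n}.ncard : ℤ) ≤
      ∑ a ∈ n.divisors, jacobiSym d a

/-- JAC: sums of the Jacobi symbol. -/
def JacStmt : Prop :=
  ∃ C : ℝ, 0 < C ∧ ∀ (d : ℕ), Squarefree d → 1 < d → ∀ Y : ℝ, 1 ≤ Y →
    ((∑ n ∈ (Finset.Icc 1 ⌊Y⌋₊).filter Odd, ∑ a ∈ n.divisors, jacobiSym d a : ℤ) : ℝ) ≤
      C * Y * (1 + Real.log d)

/-- IDB: the number of ideals of bounded norm in a real quadratic field, uniformly. -/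
def IdbStmt : Prop :=
  ∃ C : ℝ, 0 < C ∧ ∀ (k : Type) [Field k] [NumberField k] (d : ℕ) (s : 𝓞 k), finrank ℚ k = 2 →
    Squarefree d → 1 < d → s ^ 2 = (d : 𝓞 k) → ∀ Y : ℝ, 1 ≤ Y →
    {I : Ideal (𝓞 k) | I ≠ ⊥ ∧ (Ideal.absNorm I : ℝ) ≤ Y}.Finite ∧
    ({I : Ideal (𝓞 k) | I ≠ ⊥ ∧ (Ideal.absNorm I : ℝ) ≤ Y}.ncard : ℝ) ≤ C * Y * (1 + Real.log d)

/-- CLB: the class number of a real quadratic field. -/
def ClbStmt : Prop :=
  ∃ C : ℝ, 0 < C ∧ ∀ (k : Type) [Field k] [NumberField k] (d : ℕ) (s : 𝓞 k), finrank ℚ k = 2 →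
    Squarefree d → 1 < d → s ^ 2 = (d : 𝓞 k) → IsTotallyReal k → discr k ≤ 4 * d →
    (Fintype.card (ClassGroup (𝓞 k)) : ℝ) ≤ C * Real.sqrt d * (1 + Real.log d)

/-- QTL: the tail. -/
def QtlStmt : Prop :=
  ∀ δ : ℝ, 0 < δ → ∃ D₀ : ℕ, ∀ (X : ℝ) (S : Finset ℕ), 0 ≤ X →
    (∀ d ∈ S, Squarefree d ∧ 1 < d ∧ D₀ < d) →
    ∑ d ∈ S, ({K | K ∈ Q4x X ∧ rq d ≤ K}.ncard : ℝ) ≤ δ * X

end Pool.Agent.LeoD
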