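import Mathlib
import Pool.Agent.LeoD.Stmts

/-!
# Module statements of the counting part (squad LEOD)

Paper: PAPER_LEOD.md, sections 7, 8, 10.  The local densities DENB and MRB are in `LocStmts`.
-/

set_option autoImplicit false

open NumberField NumberField.InfinitePlace NumberField.mixedEmbedding IsDedekindDomain Module
  MeasureTheory Filter Topology
open Pool.Agent.Helper85_Leo Pool.Agent.LeoK Pool.Agent.LeoG Pool.Agent.LeoC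

open scoped Classical

namespace Pool.Agent.LeoD

/-- BFN: the ideals of a `BFr`. -/
def BfnStmt : Prop :=
  ∀ (k : Type) [Field k] [NumberField k] (B : BFr k),
    0 < B.b ∧ B.bb ≠ ⊥ ∧ B.cc ≠ ⊥ ∧ B.b * Ideal.absNorm B.cc = B.b ^ finrank ℚ k ∧
    (∀ p : HeightOneSpectrum (𝓞 k), (6 : 𝓞 k) ∈ p.asIdeal →
      (B.b : 𝓞 k) ∉ p.asIdeal ∧ ¬ B.bb ≤ p.asIdeal ∧ ¬ B.cc ≤ p.asIdeal) ∧
    ∀ a : 𝓞 k, a ≠ 0 → {p : HeightOneSpectrum (𝓞 k) | a ∈ p.asIdeal}.Finite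

/-- GNL: a local generator of an ideal. -/
def GnlStmt : Prop :=
  ∀ (k : Type) [Field k] [NumberField k] (I J : Ideal (𝓞 k)), I ≠ ⊥ → J ≠ ⊥ →
    ∃ a ∈ I, (∀ s : 𝓞 k, s * a ∈ I * J → s ∈ J) ∧ ∀ x ∈ I, ∃ s : 𝓞 k, x - s * a ∈ I * J

/-! ## Marks -/

/-- PRB: residue classes of pairs of `𝓞 ⊕ 𝔟` which are primitive at the primes of `Q`. -/
def PrbStmt : Prop :=
  ∀ (k : Type) [Field k] [NumberField k] (B : BFr k) (Q : Finset (HeightOneSpectrum (𝓞 k))),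
    ∃ (J : Ideal (𝓞 k)) (S : Set ((𝓞 k ⧸ J) × (𝓞 k ⧸ J))), J ≠ ⊥ ∧
      (∀ X Y : 𝓞 k, (Ideal.Quotient.mk J X, Ideal.Quotient.mk J Y) ∈ S →
        Y ∈ B.bb ∧ ∀ q ∈ Q, ¬ (X ∈ q.asIdeal ∧ Y ∈ q.asIdeal * B.bb)) ∧
      (∏ p ∈ Q, (1 - 1 / np p ^ 2)) * (Ideal.absNorm J : ℝ) ^ 2 ≤ (B.b : ℝ) * (S.ncard : ℝ)

/-- LWS: the good vectors in given residue classes modulo an ideal. -/
def LwsStmt : Prop :=
  ∀ (k : Type) [Field k] [NumberField k] (Φ : CFrame k)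
    (N : Set {w : InfinitePlace k // IsReal w}) (ε : ℝ), 0 < ε →
    ∃ η : ℝ, 0 < η ∧ ∀ (δ : ℝ) (J : Ideal (𝓞 k)) (S : Set ((𝓞 k ⧸ J) × (𝓞 k ⧸ J))),
      0 < δ → J ≠ ⊥ → ∃ T₀ : ℝ, 0 < T₀ ∧ ∀ T : ℝ, T₀ ≤ T → ∀ g : Q4 (𝓞 k), Lrg N δ g →
      (S.ncard : ℝ) / (Ideal.absNorm J : ℝ) ^ 2 * ((2 * Real.pi) ^ finrank ℚ k * Φ.w - ε) * T /
          cov k ^ 2 ≤
        ({p : 𝓞 k × 𝓞 k | (Ideal.Quotient.mk J p.1, Ideal.Quotient.mk J p.2) ∈ S ∧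
          hk g p.1 p.2 ∈ Φ.F ∧ nr (hk g p.1 p.2) ≤ T ∧
          ∀ v : InfinitePlace k, η * v ((mm g : 𝓞 k) : k) ^ (1 / 4 : ℝ) ≤
            v ((gval g p.1 p.2 : 𝓞 k) : k)}.ncard : ℝ)

/-- LOWB: many marks. -/
def LowbStmt : Prop :=
  ∀ (k : Type) [Field k] [NumberField k] (Φ : CFrame k)
    (N : Set {w : InfinitePlace k // IsReal w}) (B : BFr k) (δ ε : ℝ), 0 < δ → 0 < ε →
    ∃ T η : ℝ, 0 < T ∧ 0 < η ∧ η ≤ 1 ∧ ∀ g : Q4 (𝓞 k), Lrg N δ g → (MksB B Φ T η g).Finite ∧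
      (1 - ε) * (Pk k * (2 * Real.pi) ^ finrank ℚ k * Φ.w * T / cov k ^ 2) ≤
        (B.b : ℝ) * ((MksB B Φ T η g).ncard : ℝ)

/-! ## The type of the forms -/

/-- LTI: the local condition at a prime above 3 is invariant under `GL₂` (twisted action). -/
def LtiStmt : Prop :=
  ∀ (k : Type) [Field k] [NumberField k] (p : HeightOneSpectrum (𝓞 k)) (M : ℕ)
    (h F F' : Q4 (𝓞 k)) (x y z w : 𝓞 k), (3 : 𝓞 k) ∈ p.asIdeal → LocT p M h F →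
    x * w - y * z ∉ p.asIdeal → (∀ i, (x * w - y * z) * F' i - gact F x y z w i ∈ p.asIdeal ^ M) →
    LocT p M h F'

/-- TYI: the type is invariant under the automorphisms of `𝓞 ⊕ 𝔟` of determinant 1
(`y = y₁ / b`, `y₁ ∈ 𝔠`) and under the mirror image. -/
def TyiStmt : Prop :=
  ∀ (k : Type) [Field k] [NumberField k] (B : BFr k) (M : ℕ)
    (h : HeightOneSpectrum (𝓞 k) → Q4 (𝓞 k)) (g : Q4 (𝓞 k)), Typ B M h g →
    Typ B M h (gmir g) ∧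
    ∀ X Y y₁ w : 𝓞 k, Y ∈ B.bb → y₁ ∈ B.cc → (B.b : 𝓞 k) * (X * w) - y₁ * Y = B.b →
      ∃ g' : Q4 (𝓞 k), Typ B M h g' ∧
        ∀ i, (g' i : k) = gact (fun j => (g j : k)) (X : k) ((y₁ : k) / B.b) (Y : k) (w : k) i

/-- INJB: the marks of a form of the type without zeros and of its mirror image give different
normalised forms of the type, `b` for every mark. -/
def InjbStmt : Prop :=
  ∀ (k : Type) [Field k] [NumberField k] (B : BFr k) (M : ℕ)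
    (h : HeightOneSpectrum (𝓞 k) → Q4 (𝓞 k)) (Φ : CFrame k) (T η : ℝ) (g : Q4 (𝓞 k)),
    Typ B M h g → GIrr g → (∀ x : k, x ^ 2 ≠ -((mm g : 𝓞 k) : k)) →
    (WsetB B M h Φ T η (mm g)).Finite →
    B.b * ((MksB B Φ T η g).ncard + (MksB B Φ T η (gmir g)).ncard) ≤
      (WsetB B M h Φ T η (mm g)).ncard

/-! ## The family -/

/-- The product of the local densities of the family. -/
noncomputable def DkE {k : Type} [Field k] [NumberField k] (E : Set (HeightOneSpectrum (𝓞 k))) :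
    ℝ :=
  ⨅ Q : Finset (HeightOneSpectrum (𝓞 k)), ∏ p ∈ Q, dE E p

/-- PIE: the products over the primes. -/
def PieStmt : Prop :=
  ∀ (k : Type) [Field k] [NumberField k] (E : Set (HeightOneSpectrum (𝓞 k))),
    0 < DkE E ∧ (∀ p, 0 < dE E p ∧ dE E p ≤ 1) ∧
    (∀ Q : Finset (HeightOneSpectrum (𝓞 k)), DkE E ≤ ∏ p ∈ Q, dE E p) ∧
    ∀ ε : ℝ, 0 < ε → ∃ Q₀ : Finset (HeightOneSpectrum (𝓞 k)), ∀ Q, Q₀ ⊆ Q →
      ∏ p ∈ Q, dE E p ≤ DkE E + ε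

/-- FUN: a number `m` with `(m) 𝔠⁻²` fundamental is not divisible by the square of a prime which
does not divide `2 𝔠`; if `-m` or `3 m` is a square then `(m)` divides `24 𝔠²`. -/
def FunStmt : Prop :=
  ∀ (k : Type) [Field k] [NumberField k] (cc : Ideal (𝓞 k)) (m : 𝓞 k), cc ≠ ⊥ → Fund cc m →
    m ≠ 0 ∧ m ∈ cc ^ 2 ∧
    (∀ p : HeightOneSpectrum (𝓞 k), (2 : 𝓞 k) ∉ p.asIdeal → m ∉ (cc * p.asIdeal) ^ 2) ∧
    (((∃ x : k, x ^ 2 = -(m : k)) ∨ ∃ x : k, x ^ 2 = 3 * (m : k)) →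
      Ideal.span {m} ∣ Ideal.span {(24 : 𝓞 k)} * cc ^ 2)

/-- USB: only finitely many `m` (up to units) have `-m` or `3 m` a square. -/
def UsbStmt : Prop :=
  ∀ (k : Type) [Field k] [NumberField k] (cc : Ideal (𝓞 k)) (m : 𝓞 k), cc ≠ ⊥ → Fund cc m →
    ((∃ x : k, x ^ 2 = -(m : k)) ∨ ∃ x : k, x ^ 2 = 3 * (m : k)) →
    nr (av (mixedEmbedding k (m : k))) ≤ 24 ^ finrank ℚ k * (Ideal.absNorm cc : ℝ) ^ 2

/-- MSB: the size of the family. -/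
def MsbStmt : Prop :=
  ∀ (k : Type) [Field k] [NumberField k] (Φ : CFrame k)
    (N : Set {w : InfinitePlace k // IsReal w}) (B : BFr k) (E : Set (HeightOneSpectrum (𝓞 k))),
    (∀ Z : ℝ, (Fam Φ N B E Z).Finite) ∧
    (∃ A : ℝ, 0 < A ∧ ∀ Z : ℝ, 0 < Z → ((Fam Φ N B E Z).ncard : ℝ) ≤ A * Z) ∧
    ∀ ε : ℝ, 0 < ε → ∃ Z₀ : ℝ, ∀ Z : ℝ, Z₀ ≤ Z →
      (DkE E * ((2 * Real.pi) ^ nrComplexPlaces k * Φ.w) /
          (cov k * 2 ^ finrank ℚ k * (Ideal.absNorm B.cc : ℝ) ^ 2) - ε) * Z ≤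
        ((Fam Φ N B E Z).ncard : ℝ)

/-! ## Interfaces of the local part (proved in the local part, repeated here) -/

/-- MRB: residue classes of the family, with the local conditions at the primes of `Q`. -/
def MrbStmt : Prop :=
  ∀ (k : Type) [Field k] [NumberField k] (B : BFr k) (E : Set (HeightOneSpectrum (𝓞 k)))
    (Q : Finset (HeightOneSpectrum (𝓞 k))),
    (∀ p : HeightOneSpectrum (𝓞 k), (6 * B.b : 𝓞 k) ∈ p.asIdeal → p ∈ Q) →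
    ∃ (I : Ideal (𝓞 k)) (S : Set (𝓞 k ⧸ I)), I ≠ ⊥ ∧
      (∀ m : 𝓞 k, Ideal.Quotient.mk I m ∈ S →
        (∃ q ∈ B.cc, q ^ 2 + m ∈ Ideal.span {(4 : 𝓞 k)} * B.cc ^ 2) ∧
        ∀ p ∈ Q, (¬ ∃ x ∈ B.cc * p.asIdeal,
            x ^ 2 + m ∈ Ideal.span {(4 : 𝓞 k)} * (B.cc * p.asIdeal) ^ 2) ∧
          ((3 : 𝓞 k) ∈ p.asIdeal → (m ∈ p.asIdeal ↔ p ∈ E))) ∧
      (∏ p ∈ Q, dE E p) / (2 ^ finrank ℚ k * (Ideal.absNorm B.cc : ℝ) ^ 2) *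
          (Ideal.absNorm I : ℝ) ≤ (S.ncard : ℝ)

/-- DENB: the residue classes of the forms of the type, with the local conditions at the primes of
`Q`. -/
def DenbStmt : Prop :=
  ∀ (k : Type) [Field k] [NumberField k] (M : ℕ) (h : HeightOneSpectrum (𝓞 k) → Q4 (𝓞 k)),
    20 * finrank ℚ k ≤ M →
    (∀ p : HeightOneSpectrum (𝓞 k), (3 : 𝓞 k) ∈ p.asIdeal → HCyc p M (h p)) →
    ∀ (B : BFr k) (E : Set (HeightOneSpectrum (𝓞 k))) (Q : Finset (HeightOneSpectrum (𝓞 k))),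
    (∀ p : HeightOneSpectrum (𝓞 k), (6 * B.b : 𝓞 k) ∈ p.asIdeal → p ∈ Q) →
    ∃ (I : Ideal (𝓞 k)) (S : Set (Q4 (𝓞 k ⧸ I))), I ≠ ⊥ ∧
      (∀ (F : Q4 (𝓞 k)) (m : 𝓞 k), Typ B M h F → mm F = (B.kap : 𝓞 k) * m → Fund B.cc m →
        (∀ p : HeightOneSpectrum (𝓞 k), (3 : 𝓞 k) ∈ p.asIdeal → (m ∈ p.asIdeal ↔ p ∈ E)) →
        modQ I F ∈ S) ∧
      (S.ncard : ℝ) / (Ideal.absNorm I : ℝ) ^ 4 ≤
        (∏ p ∈ Q, (1 - 1 / np p ^ 2)) * (∏ p ∈ Q, dE E p) *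
          ((B.b : ℝ) ^ 2 / (3 ^ (8 * finrank ℚ k) * (B.b : ℝ) ^ (8 * finrank ℚ k)))

end Pool.Agent.LeoD
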