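import Mathlib
import Pool.Agent.LeoD.AlgStmts
import Pool.Agent.LeoD.QuarStmts
import Pool.Agent.LeoG.AlgStmts

/-!
# Squad LEOD, part TOW: all layers of the cyclotomic extension

`WT k K`: an element of `K` whose norm to `k` is a cube, with valuations divisible by 3 outside 3,
which is in all completions above 3 a cube times a root of unity of 3-power order, is a cube.
Paper: PAPER_LEOD_TOW.md.
-/

set_option autoImplicit false

open NumberField NumberField.InfinitePlace NumberField.mixedEmbedding IsDedekindDomain Module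
  MeasureTheory Filter Topology
open Pool.Agent.Helper85_Leo Pool.Agent.LeoK Pool.Agent.LeoG Pool.Agent.LeoC
open Pool.Agent.Leo3 (Om InLoc FixF)

open scoped Classical

namespace Pool.Agent.LeoD

/-- `z` is in every completion above 3 a cube times a root of unity of 3-power order. -/
def LocTor {L : Type} [Field L] (z : L) : Prop :=
  ∀ φ : L →+* Om, ∃ y η : Om, InLoc φ y ∧ InLoc φ η ∧ (∃ j : ℕ, η ^ 3 ^ j = 1) ∧ φ z = η * y ^ 3

/-- The relative Selmer type group of `K / k`, with local torsion, vanishes. -/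
def WT (k K : Type) [Field k] [NumberField k] [Field K] [NumberField K] [Algebra k K] : Prop :=
  ∀ z : K, z ≠ 0 → (∃ c : k, Algebra.norm k z = c ^ 3) → ValCube3 z → LocTor z → ∃ t : K, t ^ 3 = z

/-- Above 3 the extension `M / k` is contained in the extension of the completions of `k` generated
by the roots of unity of some order `3 ^ n`. -/
def LocCyc (k M : Type) [Field k] [Field M] [Algebra k M] : Prop :=
  ∃ n : ℕ, ∀ (ψ : M →+* Om) (ρ : Om ≃ₐ[ℚ_[3]] Om), FixF (ψ.comp (algebraMap k M)) ρ →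
    (∀ ζ : Om, ζ ^ 3 ^ n = 1 → ρ ζ = ζ) → FixF ψ ρ

/-- What is proved for a quadratic extension `K / k`: `WT`; Leopoldt's conjecture at 3 for `k`
implies the same for `K`; it goes up from `M` to `L = K M` for every Galois extension `M / k` of
3-power degree which is above 3 locally cyclotomic and whose tame ramified primes have only one prime
of `K` above them; and for every extension `M / k` of 3-power degree contained in a cyclotomic
extension `k(ζ)`, `ζ` of 3-power order (the layers of the cyclotomic `ℤ_3`-extension of `k`). -/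
structure GoodT (k K : Type) [Field k] [NumberField k] [Field K] [NumberField K] [Algebra k K] :
    Prop where
  wt : WT k K
  leo : LeopoldtAt k 3 → LeopoldtAt K 3
  tower : ∀ (M L : Type) [Field M] [NumberField M] [Field L] [NumberField L] [Algebra k M]
    [Algebra k L] [Algebra K L] [Algebra M L] [IsScalarTower k K L] [IsScalarTower k M L]
    [IsGalois k M] (j : ℕ), finrank k M = 3 ^ j → finrank M L = 2 → LocCyc k M →
    TameNonsplit k K M → LeopoldtAt M 3 → LeopoldtAt L 3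
  cyc : ∀ (M L : Type) [Field M] [NumberField M] [Field L] [NumberField L] [Algebra k M]
    [Algebra k L] [Algebra K L] [Algebra M L] [IsScalarTower k K L] [IsScalarTower k M L]
    (n j : ℕ), Nonempty (M →ₐ[k] CyclotomicField (3 ^ n) k) → finrank k M = 3 ^ j →
    finrank M L = 2 → LeopoldtAt M 3 → LeopoldtAt L 3

/-! ## 1. From `WT` to Leopoldt's conjecture and to the layers -/

/-- WTL. -/
def WtlStmt : Prop :=
  ∀ (k K : Type) [Field k] [NumberField k] [Field K] [NumberField K] [Algebra k K],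
    finrank k K = 2 → WT k K → LeopoldtAt k 3 → LeopoldtAt K 3

/-- TWL: the local descent.  If `φ` contains a cube root of unity and `w` lies in `K_φ(μ_{3^n})`,
`w³` in `K_φ`, then `w³` is a cube of `K_φ` times a root of unity of `K_φ`. -/
def TwlStmt : Prop :=
  ∀ (K : Type) [Field K] (φ : K →+* Om) (n : ℕ) (w u : Om), InLoc φ u → u ^ 3 = 1 → u ≠ 1 →
    w ≠ 0 → InLoc φ (w ^ 3) →
    (∀ ρ : Om ≃ₐ[ℚ_[3]] Om, FixF φ ρ → (∀ ζ : Om, ζ ^ 3 ^ n = 1 → ρ ζ = ζ) → ρ w = w) →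
    ∃ y η : Om, InLoc φ y ∧ InLoc φ η ∧ (∃ j : ℕ, η ^ 3 ^ j = 1) ∧ w ^ 3 = η * y ^ 3

/-- WMU: if `WT k K` holds then there is no cube root of unity of relative norm 1 in `K`. -/
def WmuStmt : Prop :=
  ∀ (k K : Type) [Field k] [NumberField k] [Field K] [NumberField K] [Algebra k K]
    (τ : K ≃ₐ[k] K), finrank k K = 2 → τ ≠ 1 → WT k K →
    ∀ x : K, x ^ 3 = 1 → x * τ x = 1 → x = 1

/-- TWT: `WT` goes up. -/
def TwtStmt : Prop :=
  ∀ (k K M L : Type) [Field k] [NumberField k] [Field K] [NumberField K] [Field M] [NumberField M]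
    [Field L] [NumberField L] [Algebra k K] [Algebra k M] [Algebra k L] [Algebra K L] [Algebra M L]
    [IsScalarTower k K L] [IsScalarTower k M L] [IsGalois k M] (j : ℕ),
    finrank k K = 2 → finrank k M = 3 ^ j → finrank M L = 2 → LocCyc k M → TameNonsplit k K M →
    WT k K → WT M L

/-- CYC: the layers of the cyclotomic extension. -/
def CycStmt : Prop :=
  ∀ (k M : Type) [Field k] [NumberField k] [Field M] [NumberField M] [Algebra k M] (n : ℕ),
    Nonempty (M →ₐ[k] CyclotomicField (3 ^ n) k) → IsGalois k M ∧ LocCyc k M ∧ UnrOut3 k M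

/-- INGT. -/
def IngtStmt : Prop :=
  ∀ (k K : Type) [Field k] [NumberField k] [Field K] [NumberField K] [Algebra k K],
    finrank k K = 2 → WT k K → GoodT k K

/-! ## 2. If `WT` fails then there is a form -/

/-- LTT: the local normal form of `z`: up to the cube of an element `A + B s` of `K_φ` of norm
`1 / ν` it is 1 or the generator of the torsion. -/
def LttStmt : Prop :=
  ∀ (k K : Type) [Field k] [NumberField k] [Field K] [NumberField K] [Algebra k K] (m : 𝓞 k)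
    (s : 𝓞 K) (c : K ≃ₐ[k] K), QExt k K m s c → ∀ (φ : K →+* Om) (ω τ : Om), ω ^ 2 = -3 →
    Gen (φ.comp (algebraMap k K)) ω τ → ∀ (z : K) (ν : k), ν ≠ 0 →
    z * c z = algebraMap k K ν ^ 3 → LocTor z →
    ∃ A B : Om, InLoc (φ.comp (algebraMap k K)) A ∧ InLoc (φ.comp (algebraMap k K)) B ∧
      (A + B * φ s) * (A - B * φ s) * φ (algebraMap k K ν) = 1 ∧
      ((φ z * (A + B * φ s) ^ 3 = 1 ∧ φ (c z) * (A - B * φ s) ^ 3 = 1) ∨
        ∃ μ : Om, InLoc (φ.comp (algebraMap k K)) μ ∧ μ ^ 2 = -φ (algebraMap k K (m : k)) ∧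
          3 * μ * (φ z * (A + B * φ s) ^ 3 - (τ + τ⁻¹) / 2) = 3 * (τ - τ⁻¹) / (2 * ω) * φ s ∧
          3 * μ * (φ (c z) * (A - B * φ s) ^ 3 - (τ + τ⁻¹) / 2) =
            -(3 * (τ - τ⁻¹) / (2 * ω) * φ s))

/-- WAP: weak approximation at the primes above 3. -/
def WapStmt : Prop :=
  ∀ (k : Type) [Field k] [NumberField k] (ψ : HeightOneSpectrum (𝓞 k) → (k →+* Om)),
    (∀ p : HeightOneSpectrum (𝓞 k), (3 : 𝓞 k) ∈ p.asIdeal → Ov p (ψ p)) →
    ∀ A : HeightOneSpectrum (𝓞 k) → Om,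
    (∀ p : HeightOneSpectrum (𝓞 k), (3 : 𝓞 k) ∈ p.asIdeal → InLoc (ψ p) (A p)) →
    ∀ N : ℕ, ∃ x : k, ∀ p : HeightOneSpectrum (𝓞 k), (3 : 𝓞 k) ∈ p.asIdeal →
      ‖ψ p x - A p‖ ≤ (3 : ℝ)⁻¹ ^ N

/-- APIT: clearing denominators by an integer close to 1, and the ideal. -/
def ApitStmt : Prop :=
  ∀ (K : Type) [Field K] [NumberField K] (z : K) (N : ℕ), z ≠ 0 → ValCube3 z →
    (∀ P : HeightOneSpectrum (𝓞 K), (3 : 𝓞 K) ∈ P.asIdeal → P.valuation K z = 1) →
    ∃ (n : ℕ) (y : 𝓞 K) (I : Ideal (𝓞 K)), n ≠ 0 ∧ (3 : ℤ) ^ N ∣ (n : ℤ) - 1 ∧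
      (y : K) = z * (n : K) ^ 3 ∧ y ≠ 0 ∧ Ideal.span {y} = I ^ 3

/-- APTI: the element `y` and its ideal. -/
def AptiStmt : Prop :=
  ∀ (k : Type) [Field k] [NumberField k] (M : ℕ), ∃ P Q : HeightOneSpectrum (𝓞 k) → 𝓞 k,
    (∀ p : HeightOneSpectrum (𝓞 k), (3 : 𝓞 k) ∈ p.asIdeal →
      3 * P p ^ 2 + Q p ^ 2 - 3 ∈ p.asIdeal ^ M) ∧
    ∀ (K : Type) [Field K] [NumberField K] [Algebra k K] (m : 𝓞 k) (s : 𝓞 K) (c : K ≃ₐ[k] K),
      QExt k K m s c → ¬ WT k K →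
      ∃ (y : 𝓞 K) (I : Ideal (𝓞 K)) (ν : 𝓞 k), ν ≠ 0 ∧
        (y : K) * c (y : K) = algebraMap k K (ν : k) ^ 3 ∧ Ideal.span {y} = I ^ 3 ∧
        (∀ t : K, t ^ 3 ≠ (y : K)) ∧
        ∀ p : HeightOneSpectrum (𝓞 k), (3 : 𝓞 k) ∈ p.asIdeal →
          ν - 1 ∈ p.asIdeal ^ M ∧ ZT m s p M (P p) (Q p) y

/-- LATI: the lattice in an ideal `I` of norm `(ν)`. -/
def LatiStmt : Prop :=
  ∀ (k K : Type) [Field k] [NumberField k] [Field K] [NumberField K] [Algebra k K] (B : BFr k)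
    (m : 𝓞 k) (s : 𝓞 K) (c : K ≃ₐ[k] K), QExt k K m s c → Fund B.cc m →
    ∀ (I : Ideal (𝓞 K)) (ν : 𝓞 k), ν ≠ 0 →
      I * conjI (c : K ≃+* K) I = Ideal.span {algebraMap (𝓞 k) (𝓞 K) ν} → (3 : 𝓞 k) ∣ ν - 1 →
      ∃ (U V : K) (X Y X' Y' : 𝓞 k), (∃ u ∈ I, U = (u : K)) ∧
        (∀ β ∈ B.bb, ∃ v ∈ I, algebraMap k K (β : k) * V = (v : K)) ∧
        (B.b : K) * (U * c V - V * c U) = algebraMap k K (ν : k) * s ∧
        2 * (B.b : K) * U = algebraMap k K (X : k) + algebraMap k K (Y : k) * s ∧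
        2 * (B.b : K) ^ 2 * V = algebraMap k K (X' : k) + algebraMap k K (Y' : k) * s

/-- FRMI: the form, without the conditions at 3. -/
def FrmiStmt : Prop :=
  ∀ (k K : Type) [Field k] [NumberField k] [Field K] [NumberField K] [Algebra k K] (B : BFr k)
    (m : 𝓞 k) (s : 𝓞 K) (c : K ≃ₐ[k] K), QExt k K m s c →
    (∀ x : 𝓞 K, ∃ y : k, InvI B.cc (3 * y) ∧ (x : K) - c x = algebraMap k K y * s) →
    ∀ (y : 𝓞 K) (I : Ideal (𝓞 K)) (ν : 𝓞 k), ν ≠ 0 →
    (y : K) * c (y : K) = algebraMap k K (ν : k) ^ 3 → Ideal.span {y} = I ^ 3 →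
    (∀ t : K, t ^ 3 ≠ (y : K)) → ∀ U V : K, (∃ u ∈ I, U = (u : K)) →
    (∀ β ∈ B.bb, ∃ v ∈ I, algebraMap k K (β : k) * V = (v : K)) →
    (B.b : K) * (U * c V - V * c U) = algebraMap k K (ν : k) * s →
    ∃ F : Q4 (𝓞 k), FOf B s c (y : K) U V F ∧ GIrr F ∧
      mm F = (B.kap : 𝓞 k) * m ∧ F 0 ∈ Ideal.span {(B.b : 𝓞 k) ^ 2} * B.bb ∧
      F 1 ∈ Ideal.span {(B.b : 𝓞 k) ^ 2} ∧ F 2 ∈ Ideal.span {(B.b : 𝓞 k)} * B.cc ∧
      F 3 ∈ B.cc ^ 2

/-- FLCI: the coefficients of the form in terms of the coordinates. -/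
def FlciStmt : Prop :=
  ∀ (k K : Type) [Field k] [NumberField k] [Field K] [NumberField K] [Algebra k K] (B : BFr k)
    (m : 𝓞 k) (s : 𝓞 K) (c : K ≃ₐ[k] K), QExt k K m s c →
    ∀ (y : 𝓞 K) (ν : 𝓞 k), ν ≠ 0 → (y : K) * c (y : K) = algebraMap k K (ν : k) ^ 3 →
    ∀ (U V : K) (X Y X' Y' : 𝓞 k),
    (B.b : K) * (U * c V - V * c U) = algebraMap k K (ν : k) * s →
    2 * (B.b : K) * U = algebraMap k K (X : k) + algebraMap k K (Y : k) * s →
    2 * (B.b : K) ^ 2 * V = algebraMap k K (X' : k) + algebraMap k K (Y' : k) * s →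
    ∀ F : Q4 (𝓞 k), FOf B s c (y : K) U V F →
      X * Y' - X' * Y = -(2 * (B.b : 𝓞 k) ^ 2 * ν) ∧
      ∃ W : 𝓞 K, (W : K) = c (y : K) ∧ ∀ i : Fin 4,
        8 * (B.b : 𝓞 K) ^ 3 * algebraMap (𝓞 k) (𝓞 K) (ν ^ 3 * F i) * s =
          3 * (cu ((B.b : 𝓞 K) * (algebraMap (𝓞 k) (𝓞 K) X + algebraMap (𝓞 k) (𝓞 K) Y * s))
              (algebraMap (𝓞 k) (𝓞 K) X' + algebraMap (𝓞 k) (𝓞 K) Y' * s) i * W -
            cu ((B.b : 𝓞 K) * (algebraMap (𝓞 k) (𝓞 K) X - algebraMap (𝓞 k) (𝓞 K) Y * s))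
              (algebraMap (𝓞 k) (𝓞 K) X' - algebraMap (𝓞 k) (𝓞 K) Y' * s) i * y)

/-- STDT: if `WT k K` fails for `K = k(√(3m))` then there is a form of the type without zeros. -/
def StdtStmt : Prop :=
  ∀ (k : Type) [Field k] [NumberField k] (M : ℕ), ∃ h : HeightOneSpectrum (𝓞 k) → Q4 (𝓞 k),
    (∀ p : HeightOneSpectrum (𝓞 k), (3 : 𝓞 k) ∈ p.asIdeal → HCyc p M (h p)) ∧
    ∀ (K : Type) [Field K] [NumberField K] [Algebra k K] (B : BFr k) (m : 𝓞 k) (r : K),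
      finrank k K = 2 → r ^ 2 = algebraMap k K (3 * (m : k)) → (∀ x : k, x ^ 2 ≠ 3 * (m : k)) →
      (∀ x : k, x ^ 2 ≠ -(m : k)) → Fund B.cc m → ¬ WT k K →
      ∃ F : Q4 (𝓞 k), GIrr F ∧ mm F = (B.kap : 𝓞 k) * m ∧ Typ B M h F

/-! ## 3. Final theorems -/

/-- THDT: for every number field `k` and every set `N` of real places all but at most the proportion
`3 ^ (-u) / 2` of the quadratic extensions of `k`, ramified exactly at the real places of `N`,
ordered by absolute discriminant, are good. -/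
def ThdtStmt : Prop :=
  ∀ (k : Type) [Field k] [NumberField k] (N : Set {w : InfinitePlace k // IsReal w}),
    (∀ X : ℝ, (Qx k N X).Finite) ∧
    (∃ c : ℝ, 0 < c ∧ ∀ᶠ X : ℝ in atTop, c * X ≤ ((Qx k N X).ncard : ℝ)) ∧
    ∀ ε : ℝ, 0 < ε → ∀ᶠ X : ℝ in atTop,
      ({K | K ∈ Qx k N X ∧ ∃ _ : NumberField K, ¬ GoodT k K}.ncard : ℝ) ≤
        (1 / (2 * 3 ^ un N) + ε) * ((Qx k N X).ncard : ℝ)

/-- The field generated by the roots of unity of 3-power order. -/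
noncomputable def mu3 : IntermediateField ℚ (AlgebraicClosure ℚ) :=
  IntermediateField.adjoin ℚ {ζ | ∃ n : ℕ, ζ ^ 3 ^ n = 1}

/-- Leopoldt's conjecture at 3 for `K M` for all `M ⊆ ℚ(μ_{3^∞})` of 3-power degree over `ℚ`: for all
layers of the cyclotomic `ℤ_3`-extension of `K`. -/
def LeoCyc (K : IntermediateField ℚ (AlgebraicClosure ℚ)) : Prop :=
  ∀ (M : IntermediateField ℚ (AlgebraicClosure ℚ)) (j : ℕ) (_ : NumberField ↥(K ⊔ M)),
    M ≤ mu3 → finrank ℚ M = 3 ^ j → LeopoldtAt ↥(K ⊔ M) 3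

/-- LAY: the layers over a real quadratic field. -/
def LayStmt : Prop :=
  ∀ (k : IntermediateField ℚ (AlgebraicClosure ℚ)) (_ : NumberField k), finrank ℚ k = 2 →
    IsTotallyReal k → LeoCyc k

/-- QTRT: transfer of the layers from quartic fields to quadratic extensions. -/
def QtrtStmt : Prop :=
  ∀ (k : IntermediateField ℚ (AlgebraicClosure ℚ)) (_ : NumberField k), finrank ℚ k = 2 →
    IsTotallyReal k → LeoCyc k → ∀ (X : ℝ), (Qx k ∅ X).Finite →
      {K | K ∈ Q4x X ∧ k ≤ K ∧ ¬ LeoCyc K}.ncard ≤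
        {K | K ∈ Qx k ∅ X ∧ ∃ _ : NumberField K, ¬ GoodT k K}.ncard

/-- QUART: at least half of all totally real quartic fields with a quadratic subfield, ordered by
discriminant, satisfy Leopoldt's conjecture at 3 in all layers of the cyclotomic
`ℤ_3`-extension. -/
def QuartStmt : Prop :=
  (∀ X : ℝ, (Q4x X).Finite) ∧
  (∃ c : ℝ, 0 < c ∧ ∀ᶠ X : ℝ in atTop, c * X ≤ ((Q4x X).ncard : ℝ)) ∧
  ∀ ε : ℝ, 0 < ε → ∀ᶠ X : ℝ in atTop,
    ({K | K ∈ Q4x X ∧ ¬ LeoCyc K}.ncard : ℝ) ≤ (1 / 2 + ε) * ((Q4x X).ncard : ℝ)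

end Pool.Agent.LeoD
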