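import Mathlib
import Pool.Agent.LeoG.UpStmts
import Pool.Agent.LeoD.CountStmts
import Pool.Agent.LeoD.FieldStmts

/-!
# Module statements of the local part of squad LEOD (densities)

Paper: PAPER_LEOD.md section 9 and PAPER_LEOD_LOCAL.md.
-/

set_option autoImplicit false

open NumberField IsDedekindDomain Module
open Pool.Agent.LeoK Pool.Agent.LeoG Pool.Agent.LeoC

open scoped Classical

namespace Pool.Agent.LeoD

section defs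

variable {k : Type} [Field k] [NumberField k]

/-- The exponent of `p` in `I`. -/
noncomputable def ordp (p : HeightOneSpectrum (𝓞 k)) (I : Ideal (𝓞 k)) : ℕ :=
  (Associates.mk p.asIdeal).count (Associates.mk I).factors

/-- `π` is a local uniformizer at `p`. -/
structure Unf (p : HeightOneSpectrum (𝓞 k)) (π : 𝓞 k) : Prop where
  iff : ∀ (n j : ℕ) (x : 𝓞 k), π ^ n * x ∈ p.asIdeal ^ (n + j) ↔ x ∈ p.asIdeal ^ j
  div : ∀ (n N : ℕ) (x : 𝓞 k), x ∈ p.asIdeal ^ n → ∃ f : 𝓞 k, x - π ^ n * f ∈ p.asIdeal ^ N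

/-- `F` with the double root `(0 : 1)` modulo `p`, maximal at `p`. -/
def T0 (p : HeightOneSpectrum (𝓞 k)) : Set (Q4 (𝓞 k)) :=
  {v | v 1 ∉ p.asIdeal ∧ v 2 ∈ p.asIdeal ∧ v 3 ∈ p.asIdeal ∧ v 3 ∉ p.asIdeal ^ 2}

/-- Forms equivalent to a form in `T0`. -/
def Dbl (p : HeightOneSpectrum (𝓞 k)) : Set (Q4 (𝓞 k)) :=
  {v | ∃ x y z w : 𝓞 k, x * w - y * z ∉ p.asIdeal ∧ gact v x y z w ∈ T0 p}

/-- Forms which are maximal and not totally ramified at `p`. -/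
def Up (p : HeightOneSpectrum (𝓞 k)) : Set (Q4 (𝓞 k)) :=
  {v | ∀ x y z w : 𝓞 k, x * w - y * z ∉ p.asIdeal →
    ¬ (gact v x y z w 2 ∈ p.asIdeal ∧ gact v x y z w 3 ∈ p.asIdeal ^ 2) ∧
    ¬ (gact v x y z w 1 ∈ p.asIdeal ∧ gact v x y z w 2 ∈ p.asIdeal ∧
      gact v x y z w 3 ∈ p.asIdeal)}

/-- The bound for the local density of the forms of the type. -/
noncomputable def dD (B : BFr k) (E : Set (HeightOneSpectrum (𝓞 k)))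
    (p : HeightOneSpectrum (𝓞 k)) : ℝ :=
  (1 - 1 / np p ^ 2) * dE E p * (np p ^ (2 * ordp p B.bb) /
    np p ^ (8 * ordp p (Ideal.span {(3 : 𝓞 k)}) + 8 * ordp p (Ideal.span {(B.b : 𝓞 k)})))

/-- The statement of the local density bound at `p`. -/
def LocDen (M : ℕ) (h : HeightOneSpectrum (𝓞 k) → Q4 (𝓞 k)) (B : BFr k)
    (E : Set (HeightOneSpectrum (𝓞 k))) (p : HeightOneSpectrum (𝓞 k)) : Prop :=
  ∃ (a : ℕ) (S : Set (Q4 (𝓞 k ⧸ p.asIdeal ^ a))),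
    (∀ (F : Q4 (𝓞 k)) (m : 𝓞 k), Typ B M h F → mm F = (B.kap : 𝓞 k) * m → Fund B.cc m →
      ((3 : 𝓞 k) ∈ p.asIdeal → (m ∈ p.asIdeal ↔ p ∈ E)) → modQ (p.asIdeal ^ a) F ∈ S) ∧
    (S.ncard : ℝ) ≤ np p ^ (4 * a) * dD B E p

end defs

/-! ## Tools -/

/-- VPI: exponents and uniformizers. -/
def VpiStmt : Prop :=
  ∀ (k : Type) [Field k] [NumberField k],
    (∀ (p : HeightOneSpectrum (𝓞 k)) (I : Ideal (𝓞 k)) (n : ℕ), I ≠ ⊥ →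
      (I ≤ p.asIdeal ^ n ↔ n ≤ ordp p I)) ∧
    (∀ (p : HeightOneSpectrum (𝓞 k)) (I J : Ideal (𝓞 k)), I ≠ ⊥ → J ≠ ⊥ →
      ordp p (I * J) = ordp p I + ordp p J) ∧
    (∀ (p : HeightOneSpectrum (𝓞 k)) (x y : 𝓞 k) (n : ℕ), x ≠ 0 →
      x * y ∈ p.asIdeal ^ (ordp p (Ideal.span {x}) + n) → y ∈ p.asIdeal ^ n) ∧
    (∀ (I : Ideal (𝓞 k)) (Q : Finset (HeightOneSpectrum (𝓞 k))), I ≠ ⊥ →
      (∀ p : HeightOneSpectrum (𝓞 k), I ≤ p.asIdeal → p ∈ Q) →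
      (Ideal.absNorm I : ℝ) = ∏ p ∈ Q, np p ^ ordp p I) ∧
    (∀ p : HeightOneSpectrum (𝓞 k), ordp p (Ideal.span {(3 : 𝓞 k)}) ≤ finrank ℚ k) ∧
    (∀ p : HeightOneSpectrum (𝓞 k), 2 ≤ np p) ∧
    ∀ p : HeightOneSpectrum (𝓞 k), ∃ π : 𝓞 k, Unf p π

/-- CRD: products of local sets of residue classes. -/
def CrdStmt : Prop :=
  ∀ (k : Type) [Field k] [NumberField k] (Q : Finset (HeightOneSpectrum (𝓞 k)))
    (a : HeightOneSpectrum (𝓞 k) → ℕ) (ι : Type) [Fintype ι]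
    (T : HeightOneSpectrum (𝓞 k) → Set (ι → 𝓞 k)),
    (∀ p ∈ Q, ∀ v ∈ T p, ∀ v' : ι → 𝓞 k, (∀ i, v i - v' i ∈ p.asIdeal ^ a p) → v' ∈ T p) →
    ((fun (v : ι → 𝓞 k) (i : ι) => Ideal.Quotient.mk (∏ p ∈ Q, p.asIdeal ^ a p) (v i)) ''
        {v | ∀ p ∈ Q, v ∈ T p}).ncard =
      ∏ p ∈ Q, ((fun (v : ι → 𝓞 k) (i : ι) => Ideal.Quotient.mk (p.asIdeal ^ a p) (v i)) ''
        T p).ncard

/-- GSC: forms `π ^ n f`. -/
def GscStmt : Prop :=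
  ∀ (k : Type) [Field k] [NumberField k] (p : HeightOneSpectrum (𝓞 k)) (π : 𝓞 k) (n : Fin 4 → ℕ)
    (a c : ℕ) (T : Set (Q4 (𝓞 k))), Unf p π → (∀ i, n i + c ≤ a) →
    ((modQ (p.asIdeal ^ a) '' {F | ∃ f ∈ T, ∀ i, F i - π ^ n i * f i ∈ p.asIdeal ^ a}).ncard : ℝ) ≤
      np p ^ (4 * a) / np p ^ (∑ i, n i + 4 * c) * ((modQ (p.asIdeal ^ c) '' T).ncard : ℝ)

/-! ## Double roots -/

/-- DRT: a form with discriminant zero modulo `p` has a double root modulo `p`. -/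
def DrtStmt : Prop :=
  ∀ (k : Type) [Field k] [NumberField k] (p : HeightOneSpectrum (𝓞 k)) (v : Q4 (𝓞 k)),
    mm v ∈ p.asIdeal → ∃ x y z w : 𝓞 k, x * w - y * z ∉ p.asIdeal ∧
      gact v x y z w 2 ∈ p.asIdeal ∧ gact v x y z w 3 ∈ p.asIdeal

/-- DBC: the number of forms modulo `p²` with a double root modulo `p`, maximal. -/
def DbcStmt : Prop :=
  ∀ (k : Type) [Field k] [NumberField k] (p : HeightOneSpectrum (𝓞 k)),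
    ((modQ (p.asIdeal ^ 2) '' Dbl p).ncard : ℝ) ≤ np p ^ 4 * (np p - 1) ^ 2 * (np p + 1)

/-- UPC: the forms modulo `p²` which are maximal and not totally ramified, `p ∣ 2`. -/
def UpcStmt : Prop :=
  ∀ (k : Type) [Field k] [NumberField k] (p : HeightOneSpectrum (𝓞 k)), (2 : 𝓞 k) ∈ p.asIdeal →
    ((modQ (p.asIdeal ^ 2) '' Up p).ncard : ℝ) ≤ np p ^ 8 * (1 - 1 / np p ^ 2) ^ 2

/-- U2F: forms with fundamental discriminant are in `Up p`, `p ∣ 2` (`u` an odd integer). -/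
def U2fStmt : Prop :=
  ∀ (k : Type) [Field k] [NumberField k] (p : HeightOneSpectrum (𝓞 k)) (cc : Ideal (𝓞 k))
    (F : Q4 (𝓞 k)) (u m : 𝓞 k), (2 : 𝓞 k) ∈ p.asIdeal → cc ≠ ⊥ → ¬ cc ≤ p.asIdeal →
    u ∉ p.asIdeal → mm F = u ^ 2 * m → Fund cc m → F ∈ Up p

/-! ## The primes above 3 -/

/-- LT3: cubic forms with nonzero discriminant and with a zero over a finite field of
characteristic 3. -/
def Lt3Stmt : Prop :=
  ∀ (A : Type) [Field A] [Fintype A], (3 : A) = 0 →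
    3 * (Nat.card {v : Q4 A // dsc v ≠ 0 ∧ ∃ x y : A, (x ≠ 0 ∨ y ≠ 0) ∧ gval v x y = 0} : ℝ) ≤
      2 * ((Fintype.card A : ℝ) ^ 4 * (1 - 1 / (Fintype.card A : ℝ) ^ 2) *
        (1 - 1 / (Fintype.card A : ℝ)))

/-- KE2: two linear equations modulo `p ^ M`. -/
def Ke2Stmt : Prop :=
  ∀ (k : Type) [Field k] [NumberField k] (p : HeightOneSpectrum (𝓞 k)) (M j : ℕ)
    (a b c d : 𝓞 k), j ≤ M → a * d - b * c ∈ p.asIdeal ^ j →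
    np p ^ j ≤ (Nat.card {v : (𝓞 k ⧸ p.asIdeal ^ M) × (𝓞 k ⧸ p.asIdeal ^ M) //
      Ideal.Quotient.mk _ a * v.1 + Ideal.Quotient.mk _ b * v.2 = 0 ∧
      Ideal.Quotient.mk _ c * v.1 + Ideal.Quotient.mk _ d * v.2 = 0} : ℝ)

/-- LKR: the kernel of the linearised action. -/
def LkrStmt : Prop :=
  ∀ (k : Type) [Field k] [NumberField k] (p : HeightOneSpectrum (𝓞 k)) (M : ℕ) (h : Q4 (𝓞 k)),
    (3 : 𝓞 k) ∈ p.asIdeal → 20 * finrank ℚ k ≤ M → HCyc p M h →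
    np p ^ (8 * ordp p (Ideal.span {(3 : 𝓞 k)})) ≤
      (Nat.card {X : Q4 (𝓞 k ⧸ p.asIdeal ^ M) //
        (2 * X 0 - X 3) * modQ _ h 0 + modQ _ h 1 * X 2 = 0 ∧
        3 * modQ _ h 0 * X 1 + modQ _ h 1 * X 0 + 2 * modQ _ h 2 * X 2 = 0 ∧
        2 * modQ _ h 1 * X 1 + modQ _ h 2 * X 3 + 3 * modQ _ h 3 * X 2 = 0 ∧
        (2 * X 3 - X 0) * modQ _ h 3 + modQ _ h 2 * X 1 = 0} : ℝ)

/-- STB: the stabiliser of `h` (matrices `(g 0, g 1; g 2, g 3)`). -/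
def StbStmt : Prop :=
  ∀ (k : Type) [Field k] [NumberField k] (p : HeightOneSpectrum (𝓞 k)) (M : ℕ) (h : Q4 (𝓞 k)),
    (3 : 𝓞 k) ∈ p.asIdeal → 20 * finrank ℚ k ≤ M → HCyc p M h →
    3 * np p ^ (8 * ordp p (Ideal.span {(3 : 𝓞 k)})) ≤
      (Nat.card {g : Q4 (𝓞 k ⧸ p.asIdeal ^ M) // IsUnit (g 0 * g 3 - g 1 * g 2) ∧
        ∀ i, gact (modQ _ h) (g 0) (g 1) (g 2) (g 3) i = (g 0 * g 3 - g 1 * g 2) * modQ _ h i} : ℝ)

/-- GLC: the number of invertible matrices. -/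
def GlcStmt : Prop :=
  ∀ (k : Type) [Field k] [NumberField k] (p : HeightOneSpectrum (𝓞 k)) (M : ℕ), 1 ≤ M →
    (Nat.card {g : Q4 (𝓞 k ⧸ p.asIdeal ^ M) // IsUnit (g 0 * g 3 - g 1 * g 2)} : ℝ) =
      np p ^ (4 * M) * (1 - 1 / np p) * (1 - 1 / np p ^ 2)

/-- ORB: the orbit of `h`. -/
def OrbStmt : Prop :=
  ∀ (k : Type) [Field k] [NumberField k] (p : HeightOneSpectrum (𝓞 k)) (M : ℕ) (h : Q4 (𝓞 k)),
    (3 : 𝓞 k) ∈ p.asIdeal → 20 * finrank ℚ k ≤ M → HCyc p M h →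
    3 * np p ^ (8 * ordp p (Ideal.span {(3 : 𝓞 k)})) *
        ((modQ (p.asIdeal ^ M) '' {F | InOrb p M h F}).ncard : ℝ) ≤
      np p ^ (4 * M) * (1 - 1 / np p) * (1 - 1 / np p ^ 2)

/-! ## The local densities -/

/-- LD6: primes not above 6. -/
def Ld6Stmt : Prop :=
  ∀ (k : Type) [Field k] [NumberField k] (M : ℕ) (h : HeightOneSpectrum (𝓞 k) → Q4 (𝓞 k))
    (B : BFr k) (E : Set (HeightOneSpectrum (𝓞 k))) (p : HeightOneSpectrum (𝓞 k)),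
    (6 : 𝓞 k) ∉ p.asIdeal → LocDen M h B E p

/-- LDT: primes above 2. -/
def LdtStmt : Prop :=
  ∀ (k : Type) [Field k] [NumberField k] (M : ℕ) (h : HeightOneSpectrum (𝓞 k) → Q4 (𝓞 k))
    (B : BFr k) (E : Set (HeightOneSpectrum (𝓞 k))) (p : HeightOneSpectrum (𝓞 k)),
    (2 : 𝓞 k) ∈ p.asIdeal → LocDen M h B E p

/-- LDE: primes above 3 in `E`. -/
def LdeStmt : Prop :=
  ∀ (k : Type) [Field k] [NumberField k] (M : ℕ) (h : HeightOneSpectrum (𝓞 k) → Q4 (𝓞 k))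
    (B : BFr k) (E : Set (HeightOneSpectrum (𝓞 k))) (p : HeightOneSpectrum (𝓞 k)),
    20 * finrank ℚ k ≤ M → HCyc p M (h p) → (3 : 𝓞 k) ∈ p.asIdeal → p ∈ E → LocDen M h B E p

/-- LDN: primes above 3 not in `E`. -/
def LdnStmt : Prop :=
  ∀ (k : Type) [Field k] [NumberField k] (M : ℕ) (h : HeightOneSpectrum (𝓞 k) → Q4 (𝓞 k))
    (B : BFr k) (E : Set (HeightOneSpectrum (𝓞 k))) (p : HeightOneSpectrum (𝓞 k)),
    20 * finrank ℚ k ≤ M → HCyc p M (h p) → (3 : 𝓞 k) ∈ p.asIdeal → p ∉ E → LocDen M h B E p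

/-! ## The family -/

/-- SQ2: residue classes of negatives of squares modulo 4, `p ∣ 2`. -/
def Sq2Stmt : Prop :=
  ∀ (k : Type) [Field k] [NumberField k] (p : HeightOneSpectrum (𝓞 k)), (2 : 𝓞 k) ∈ p.asIdeal →
    ∀ e : ℕ, e = ordp p (Ideal.span {(2 : 𝓞 k)}) →
    np p ^ (e + 2) - np p ^ e ≤ ((Ideal.Quotient.mk (p.asIdeal ^ (2 * e + 2)) ''
      {m : 𝓞 k | (∃ x : 𝓞 k, x ^ 2 + m ∈ p.asIdeal ^ (2 * e)) ∧
        ¬ ∃ x ∈ p.asIdeal, x ^ 2 + m ∈ p.asIdeal ^ (2 * e + 2)}).ncard : ℝ)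

/-- MRP: the residue classes of the family at one prime. -/
def MrpStmt : Prop :=
  ∀ (k : Type) [Field k] [NumberField k] (B : BFr k) (E : Set (HeightOneSpectrum (𝓞 k)))
    (p : HeightOneSpectrum (𝓞 k)), ∃ (a : ℕ) (R : Set (𝓞 k)),
    (∀ m ∈ R, ∀ m' : 𝓞 k, m - m' ∈ p.asIdeal ^ a → m' ∈ R) ∧
    (∀ m ∈ R, (∃ t : 𝓞 k, t ∉ p.asIdeal ∧ SqM B.cc (t ^ 2 * m)) ∧ ¬ SqM (B.cc * p.asIdeal) m ∧
      ((3 : 𝓞 k) ∈ p.asIdeal → (m ∈ p.asIdeal ↔ p ∈ E))) ∧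
    dE E p / np p ^ (ordp p (Ideal.span {(2 : 𝓞 k)}) + 2 * ordp p B.cc) * np p ^ a ≤
      ((Ideal.Quotient.mk (p.asIdeal ^ a) '' R).ncard : ℝ)

end Pool.Agent.LeoD
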