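import Mathlib
import Pool.Agent.LeoD.TowStmts

/-!
# Squad LEOD: quartic fields of signature (2, 1) with a quadratic subfield

Paper: PAPER_LEOD_MIX.md.
-/

set_option autoImplicit false

open NumberField NumberField.InfinitePlace NumberField.mixedEmbedding IsDedekindDomain Module
  MeasureTheory Filter Topology
open Pool.Agent.Helper85_Leo Pool.Agent.LeoK Pool.Agent.LeoG Pool.Agent.LeoC

open scoped Classical

namespace Pool.Agent.LeoD

/-- The quartic fields with two real places and one complex place, of absolute discriminant at most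
`X`, which have a quadratic subfield. -/
def Q4m (X : ℝ) : Set (IntermediateField ℚ (AlgebraicClosure ℚ)) :=
  {K | ∃ _ : NumberField K, finrank ℚ K = 4 ∧ nrComplexPlaces K = 1 ∧
    ((discr K).natAbs : ℝ) ≤ X ∧
    ∃ k : IntermediateField ℚ (AlgebraicClosure ℚ), k ≤ K ∧ finrank ℚ k = 2}

/-- QTM: the fields over a real quadratic field and the quadratic extensions of it. -/
def QtmStmt : Prop :=
  ∀ (k : IntermediateField ℚ (AlgebraicClosure ℚ)) (_ : NumberField k), finrank ℚ k = 2 →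
    IsTotallyReal k → LeoCyc k → ∀ (X : ℝ),
    (∀ w : {w : InfinitePlace k // IsReal w}, (Qx k {w} X).Finite) →
    {K | K ∈ Q4m X ∧ k ≤ K}.Finite ∧
    {K | K ∈ Q4m X ∧ k ≤ K}.ncard =
      ∑ w : {w : InfinitePlace k // IsReal w}, (Qx k {w} X).ncard ∧
    {K | K ∈ Q4m X ∧ k ≤ K ∧ ¬ LeoCyc K}.ncard ≤
      ∑ w : {w : InfinitePlace k // IsReal w},
        {K | K ∈ Qx k {w} X ∧ ∃ _ : NumberField K, ¬ GoodT k K}.ncard

/-- QSM: the quadratic subfield is totally real and unique, and the square of its discriminant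
divides the discriminant. -/
def QsmStmt : Prop :=
  ∀ (X : ℝ) (K : IntermediateField ℚ (AlgebraicClosure ℚ)), K ∈ Q4m X →
    ∀ k : IntermediateField ℚ (AlgebraicClosure ℚ), k ≤ K → finrank ℚ k = 2 →
      (∃ _ : NumberField k, IsTotallyReal k ∧ ((discr k).natAbs : ℝ) ^ 2 ≤ X) ∧
      ∀ k' : IntermediateField ℚ (AlgebraicClosure ℚ), k' ≤ K → finrank ℚ k' = 2 → k' = k

/-- QLM: the tail. -/
def QlmStmt : Prop :=
  ∀ δ : ℝ, 0 < δ → ∃ D₀ : ℕ, ∀ (X : ℝ) (S : Finset ℕ), 0 ≤ X →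
    (∀ d ∈ S, Squarefree d ∧ 1 < d ∧ D₀ < d) →
    ∑ d ∈ S, ({K | K ∈ Q4m X ∧ rq d ≤ K}.ncard : ℝ) ≤ δ * X

/-- QUARM: at least `5 / 6` of all quartic fields of signature (2, 1) with a quadratic subfield,
ordered by absolute discriminant, satisfy Leopoldt's conjecture at 3 in all layers of the
cyclotomic `ℤ_3`-extension. -/
def QuarmStmt : Prop :=
  (∀ X : ℝ, (Q4m X).Finite) ∧
  (∃ c : ℝ, 0 < c ∧ ∀ᶠ X : ℝ in atTop, c * X ≤ ((Q4m X).ncard : ℝ)) ∧
  ∀ ε : ℝ, 0 < ε → ∀ᶠ X : ℝ in atTop,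
    ({K | K ∈ Q4m X ∧ ¬ LeoCyc K}.ncard : ℝ) ≤ (1 / 6 + ε) * ((Q4m X).ncard : ℝ)

end Pool.Agent.LeoD
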