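import Pool.Agent.LeoC.Asm
import Pool.Agent.LeoD.QuarStmts
import Pool.Agent.LeoD.CountStmts
import Pool.Agent.LeoD.LocStmts
import Pool.Agent.LeoD.AlgStmts
import Pool.Agent.Helper59_LeoD.Prm
import Pool.Agent.Helper59_LeoD.Par
import Pool.Agent.Helper59_LeoD.Thd
import Pool.Agent.Helper59_LeoD.Qtl
import Pool.Agent.Helper59_LeoD.Quar
import Pool.Agent.Helper59_LeoD.Mrp
import Pool.Agent.Helper90_LeoD.Qua
import Pool.Agent.Helper90_LeoD.Qxb
import Pool.Agent.Helper90_LeoD.Qrf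
import Pool.Agent.Helper9_LeoD.Rps
import Pool.Agent.Helper48_LeoD.Idb
import Pool.Agent.Helper65_LeoD.Idq
import Pool.Agent.Helper81_LeoD.Jac
import Pool.Agent.Helper77_LeoD.Qrd
import Pool.Agent.Helper29_LeoD.Fnb
import Pool.Agent.Helper29_LeoD.Tw3
import Pool.Agent.Helper65_LeoD.Dsk
import Pool.Agent.Helper20_LeoD.Qsq
import Pool.Agent.Helper75_LeoD.Lcg
import Pool.Agent.Helper75_LeoD.Oks
import Pool.Agent.Helper31_LeoD.Dif
import Pool.Agent.Helper5_LeoD.Cof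
import Pool.Agent.Helper69_LeoD.Qtr
import Pool.Agent.Helper86_LeoD.Ql2
import Pool.Agent.Helper81_LeoD.Clb
import Pool.Agent.Helper26_LeoD.Bfn
import Pool.Agent.Helper26_LeoD.Gnl
import Pool.Agent.Helper26_LeoD.Cntb
import Pool.Agent.Helper27_LeoD.Lowb
import Pool.Agent.Helper67_LeoD.Prb
import Pool.Agent.Helper89_LeoD.Lws
import Pool.Agent.Helper2_LeoD.Lti
import Pool.Agent.Helper2_LeoD.Tyi
import Pool.Agent.Helper69_LeoD.Injb
import Pool.Agent.Helper52_LeoD.Fun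
import Pool.Agent.Helper65_LeoD.Pie
import Pool.Agent.Helper61_LeoD.Std
import Pool.Agent.Helper84_LeoD.Cnj
import Pool.Agent.Helper84_LeoD.Hcy
import Pool.Agent.Helper84_LeoD.Flb
import Pool.Agent.Helper33_LeoD.Fla
import Pool.Agent.Helper5_LeoD.Flc
import Pool.Agent.Helper76_LeoD.Dvp
import Pool.Agent.Helper76_LeoD.Eta
import Pool.Agent.Helper84_LeoD.Apt
import Pool.Agent.Helper84_LeoD.Lrb
import Pool.Agent.Helper84_LeoD.Tau
import Pool.Agent.Helper28_LeoD.Lra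
import Pool.Agent.Helper71_LeoD.Lcv
import Pool.Agent.Helper24_LeoD.Apo
import Pool.Agent.Helper24_LeoD.Int
import Pool.Agent.Helper61_LeoD.Lat
import Pool.Agent.Helper32_LeoD.Frm
import Pool.Agent.Helper68_LeoD.Loc
import Pool.Agent.Helper73_LeoD.Msb
import Pool.Agent.Helper59_LeoK.Phi

/-!
# LEOD: assembly of all modules
-/

set_option autoImplicit false

namespace Pool.Agent.LeoD.Asm

/-! ## fields -/

theorem lcg : LcgStmt := H75.lcg
theorem bfn : BfnStmt := H26.bfn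
theorem gnl : GnlStmt := H26.gnl
theorem fnb : FnbStmt := H29.fnb lcg
theorem tw3 : Tw3Stmt := H29.tw3 lcg
theorem prm : PrmStmt := H59.prm fnb
theorem dif : DifStmt := H31.dif H75.oks
theorem dsk : DskStmt := H65.dsk dif
theorem par : ParStmt := H59.par fnb tw3 H9.rps prm dsk H90.qua H5.cof LeoC.Asm.evs
theorem qxb : QxbStmt := H90.qxb H9.rps prm dsk fnb
theorem idb : IdbStmt := H48.idb H65.idq H81.jac
theorem qtl : QtlStmt := H59.qtl qxb (H81.clb idb) idb H69.qtr H90.qrf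

/-! ## algebra -/

theorem dvp : DvpStmt := H76.dvp fnb
theorem apt : AptStmt :=
  H84.apt H28.lra H84.lrb (H76.eta LeoK.H69.qloS) H84.tau H24.apo (H71.lcv H24.apo H24.int_) dvp
    LeoK.H59.phi
theorem std : StdStmt :=
  H61.std H77.qrd H84.cnj dvp apt (H61.lat H77.qrd) H32.frm H5.flc H84.hcy (H33.fla dvp)
    (H84.flb dvp)

/-! ## counting -/

theorem lws : LwsStmt :=
  H89.lws LeoC.Asm.map (LeoC.H56.VOD.vod_stmt LeoC.Asm.con) LeoC.H17.cov LeoC.Asm.ltl LeoC.Asm.con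
theorem prb : PrbStmt := H67.prb LeoC.Asm.prc gnl bfn
theorem lowb : LowbStmt := H27.lowb lws prb LeoC.Asm.lwt LeoK.H65.pik
theorem tyi : TyiStmt := H2.tyi H2.lti
theorem injb : InjbStmt := H69.injb LeoG.H84.obg LeoC.Asm.hka LeoC.Asm.evs tyi gnl bfn
theorem usb : UsbStmt := H52.usb H52.fun_ LeoC.Asm.evs
theorem msb : MsbStmt :=
  H73.msb H68.mrb LeoC.Asm.msa LeoC.Asm.mst LeoK.H65.pik H65.pie bfn
theorem cntb : CntbStmt :=
  H26.cntb lowb msb LeoC.Asm.mst LeoC.Asm.upp H68.denb_all injb LeoC.Asm.exc usb LeoK.H65.pik H65.pie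
    LeoC.Asm.con LeoC.Asm.hka LeoC.Asm.evs bfn

/-! ## final theorems -/

theorem thd : ThdStmt := H59.thd par H90.qua std cntb LeoC.H27.fra
theorem quar : QuarStmt := H59.quar qtl H69.qtr H90.qrf H86.ql2 H20.qsq thd

end Pool.Agent.LeoD.Asm
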