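import Pool.Agent.LeoD.Asm
import Pool.Agent.LeoD.TowStmts
import Pool.Agent.Helper59_LeoD.Ltt
import Pool.Agent.Helper59_LeoD.Thdt
import Pool.Agent.Helper59_LeoD.Quart
import Pool.Agent.Helper59_LeoD.Qlm
import Pool.Agent.Helper59_LeoD.Quarm
import Pool.Agent.Helper29_LeoD.Twt
import Pool.Agent.Helper31_LeoD.Twl
import Pool.Agent.Helper71_LeoD.Wmu
import Pool.Agent.Helper9_LeoD.Wtl
import Pool.Agent.Helper65_LeoD.Apit
import Pool.Agent.Helper61_LeoD.LatI
import Pool.Agent.Helper32_LeoD.FrmiT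
import Pool.Agent.Helper32_LeoD.Apti
import Pool.Agent.Helper17_LeoD.Flci
import Pool.Agent.Helper90_LeoD.Qtrt
import Pool.Agent.Helper81_LeoD.Stdt
import Pool.Agent.Helper69_LeoD.Ingt
import Pool.Agent.Helper69_LeoD.Cyc
import Pool.Agent.Helper59_LeoD.Wap
import Pool.Agent.Helper81_LeoD.Qtm
import Pool.Agent.Helper48_LeoD.Lay
import Pool.Agent.Helper59_LeoD.Qsm

/-!
# LEOD, part TOW: assembly of all modules
-/

set_option autoImplicit false

namespace Pool.Agent.LeoD.Asm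

theorem twt : TwtStmt := H29.twt H31.twl H71.wmu
theorem wtl : WtlStmt := H9.wtl
theorem ltt : LttStmt := H59.ltt LeoK.H69.qloS
theorem wap : WapStmt := H59.wap
theorem qtm : QtmStmt := H81.qtm
theorem lay : LayStmt := H48.lay
theorem qsm : QsmStmt := H59.qsm
theorem apti : AptiStmt := H32.apti ltt wap H65.apit H84.tau H24.apo H24.int_ LeoK.H59.phi
theorem stdt : StdtStmt :=
  H81.stdt H77.qrd H84.cnj dvp apti (H61.lati H77.qrd) H32.frmi H17.flci H84.hcy
    (H33.fla dvp) (H84.flb dvp)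
theorem ingt : IngtStmt := H69.ingt wtl twt H69.cyc
theorem thdt : ThdtStmt := H59.thdt par H90.qua stdt cntb LeoC.H27.fra ingt
theorem quart : QuartStmt :=
  H59.quart qtl H69.qtr H90.qtrt H90.qrf lay H20.qsq thdt
theorem qlm : QlmStmt := H59.qlm qxb (H81.clb idb) idb qtm H90.qrf lay
theorem quarm : QuarmStmt := H59.quarm qlm qtm H90.qrf lay qsm thdt

end Pool.Agent.LeoD.Asm
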